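import Mathlib

-- merged part: Pool.Agent.Work.MP_df5cf0_gt.Obj
section
set_option autoImplicit false

namespace Pool.Agent.Work.MP_df5cf0_gt

open Function Relation

/-- A reflexive graph together with a family of injective graph endomorphisms closed under
composition and acting freely. -/
structure Str (V : Type) where
  adj : V → V → Prop
  G : Set (V → V)
  refl : ∀ x, adj x x
  symm : ∀ x y, adj x y → adj y x
  id_mem : id ∈ G
  comp_mem : ∀ g h, g ∈ G → h ∈ G → g ∘ h ∈ G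
  inj : ∀ g, g ∈ G → Injective g
  map_adj : ∀ g, g ∈ G → ∀ x y, adj x y → adj (g x) (g y)
  free : ∀ g, g ∈ G → ∀ x, g x = x → g = id

/-- A finite graph with a free action of a finite group. -/
structure Obj where
  V : Type
  fin : Finite V
  s : Str V

instance (A : Obj) : Finite A.V := A.fin

namespace Obj

abbrev adj (A : Obj) : A.V → A.V → Prop := A.s.adj
abbrev G (A : Obj) : Set (A.V → A.V) := A.s.G

theorem iterate_mem (A : Obj) {g : A.V → A.V} (hg : g ∈ A.G) (n : ℕ) : g^[n] ∈ A.G := by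
  induction n with
  | zero => exact A.s.id_mem
  | succ n ih => rw [Function.iterate_succ]; exact A.s.comp_mem _ _ ih hg

theorem exists_inv (A : Obj) {g : A.V → A.V} (hg : g ∈ A.G) :
    ∃ h ∈ A.G, (∀ x, h (g x) = x) ∧ ∀ x, g (h x) = x := by
  have hb : Bijective g := Finite.injective_iff_bijective.mp (A.s.inj g hg)
  let e : Equiv.Perm A.V := Equiv.ofBijective g hb
  have hpos : 0 < orderOf e := orderOf_pos e
  obtain ⟨m, hm⟩ : ∃ m, orderOf e = m + 1 := ⟨orderOf e - 1, by omega⟩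
  have h1 : e ^ (m + 1) = 1 := by rw [← hm]; exact pow_orderOf_eq_one e
  have h2 : ∀ x, g^[m + 1] x = x := by
    intro x
    have : (e ^ (m + 1)) x = x := by rw [h1]; rfl
    rw [Equiv.Perm.coe_pow] at this
    exact this
  refine ⟨g^[m], A.iterate_mem hg m, fun x => ?_, fun x => ?_⟩
  · have := h2 x
    rwa [Function.iterate_succ_apply] at this
  · have := h2 x
    rwa [Function.iterate_succ_apply'] at this

theorem fix (A : Obj) {g : A.V → A.V} (hg : g ∈ A.G) {x : A.V} (hx : g x = x) (y : A.V) :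
    g y = y := by
  rw [A.s.free g hg x hx]; rfl

end Obj

/-- Equivariant edge-surjective graph maps. -/
structure Hom (B A : Obj) (q : B.V → A.V) : Prop where
  map_adj : ∀ x y, B.adj x y → A.adj (q x) (q y)
  down : ∀ g' ∈ B.G, ∃ g ∈ A.G, ∀ x, q (g' x) = g (q x)
  up : ∀ g ∈ A.G, ∃ g' ∈ B.G, ∀ x, q (g' x) = g (q x)
  edge : ∀ a a', A.adj a a' → ∃ b b', B.adj b b' ∧ q b = a ∧ q b' = a'

theorem Hom.surj {B A : Obj} {q : B.V → A.V} (h : Hom B A q) : Surjective q := fun a => by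
  obtain ⟨b, -, -, hb, -⟩ := h.edge a a (A.s.refl a)
  exact ⟨b, hb⟩

theorem Hom.comp {C B A : Obj} {p : C.V → B.V} {q : B.V → A.V} (hp : Hom C B p)
    (hq : Hom B A q) : Hom C A (q ∘ p) where
  map_adj x y h := hq.map_adj _ _ (hp.map_adj _ _ h)
  down g'' hg'' := by
    obtain ⟨g', hg', h1⟩ := hp.down g'' hg''
    obtain ⟨g, hg, h2⟩ := hq.down g' hg'
    exact ⟨g, hg, fun x => by simp [h1, h2]⟩
  up g hg := by
    obtain ⟨g', hg', h1⟩ := hq.up g hg
    obtain ⟨g'', hg'', h2⟩ := hp.up g' hg'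
    exact ⟨g'', hg'', fun x => by simp [h1, h2]⟩
  edge a a' h := by
    obtain ⟨b, b', hb, rfl, rfl⟩ := hq.edge a a' h
    obtain ⟨c, c', hc, rfl, rfl⟩ := hp.edge b b' hb
    exact ⟨c, c', hc, rfl, rfl⟩

/-- If a group element upstairs preserves one fibre then it preserves all fibres. -/
theorem Hom.fix {B A : Obj} {q : B.V → A.V} (h : Hom B A q) {g' : B.V → B.V} (hg' : g' ∈ B.G)
    {b : B.V} (hb : q (g' b) = q b) (x : B.V) : q (g' x) = q x := by
  obtain ⟨g, hg, h1⟩ := h.down g' hg'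
  rw [h1] at hb ⊢
  exact A.fix hg hb _

/-- Connected inside a fibre of `q`. -/
def FC (B : Obj) {α : Type} (q : B.V → α) (b b' : B.V) : Prop :=
  ReflTransGen (fun u v => B.adj u v ∧ q u = q v) b b'

theorem FC.refl {B : Obj} {α : Type} {q : B.V → α} (b : B.V) : FC B q b b := ReflTransGen.refl

theorem FC.single {B : Obj} {α : Type} {q : B.V → α} {b b' : B.V} (h : B.adj b b')
    (h' : q b = q b') : FC B q b b' := ReflTransGen.single ⟨h, h'⟩

theorem FC.trans {B : Obj} {α : Type} {q : B.V → α} {b b' b'' : B.V} (h : FC B q b b')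
    (h' : FC B q b' b'') : FC B q b b'' := ReflTransGen.trans h h'

theorem FC.symm {B : Obj} {α : Type} {q : B.V → α} {b b' : B.V} (h : FC B q b b') :
    FC B q b' b := by
  induction h with
  | refl => exact FC.refl _
  | tail _ h2 ih => exact (FC.single (B.s.symm _ _ h2.1) h2.2.symm).trans ih

theorem FC.eq {B : Obj} {α : Type} {q : B.V → α} {b b' : B.V} (h : FC B q b b') :
    q b = q b' := by
  induction h with
  | refl => rfl
  | tail _ h2 ih => exact ih.trans h2.2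

/-- Transfer of fibre connectedness along a map defined on the fibre. -/
theorem FC.transfer {B B' : Obj} {α α' : Type} {q : B.V → α} {q' : B'.V → α'} {b b' : B.V}
    (h : FC B q b b') (φ : ∀ u : B.V, q b = q u → B'.V)
    (hφ : ∀ u v hu hv, B.adj u v → B'.adj (φ u hu) (φ v hv) ∧ q' (φ u hu) = q' (φ v hv)) :
    FC B' q' (φ b rfl) (φ b' h.eq) := by
  induction h with
  | refl => exact FC.refl _
  | @tail u v h1 h2 ih =>
    have hu : q b = q u := FC.eq h1
    exact FC.trans ih (FC.single (hφ u v hu _ h2.1).1 (hφ u v hu _ h2.1).2)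

/-- Basic morphisms. -/
structure Basic (B A : Obj) (q : B.V → A.V) : Prop where
  hom : Hom B A q
  orb : ∀ b b', q b = q b' → ∃ g ∈ B.G, FC B q b (g b')
  fill : ∀ _ : A.V, ∃ a₀, ∀ b b', q b = a₀ → q b' = a₀ → FC B q b b'

theorem basic_of_mono {B A : Obj} {q : B.V → A.V} (h : Hom B A q)
    (hc : ∀ b b', q b = q b' → FC B q b b') : Basic B A q where
  hom := h
  orb b b' hb := ⟨id, B.s.id_mem, hc b b' hb⟩
  fill a := ⟨a, fun b b' hb hb' => hc b b' (hb.trans hb'.symm)⟩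

theorem basic_of_inj {B A : Obj} {q : B.V → A.V} (h : Hom B A q) (hi : Injective q) :
    Basic B A q :=
  basic_of_mono h fun b b' hb => by rw [hi hb]; exact FC.refl _

/-- Morphisms are composites of basic morphisms. -/
inductive Mor : ∀ (B A : Obj), (B.V → A.V) → Prop
  | basic {B A : Obj} {q : B.V → A.V} : Basic B A q → Mor B A q
  | comp {C B A : Obj} {p : C.V → B.V} {q : B.V → A.V} :
      Mor C B p → Mor B A q → Mor C A (q ∘ p)

theorem Mor.hom {B A : Obj} {q : B.V → A.V} (h : Mor B A q) : Hom B A q := by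
  induction h with
  | basic h => exact h.hom
  | comp _ _ ih1 ih2 => exact ih1.comp ih2

theorem hom_id (A : Obj) : Hom A A id where
  map_adj _ _ h := h
  down g hg := ⟨g, hg, fun _ => rfl⟩
  up g hg := ⟨g, hg, fun _ => rfl⟩
  edge a a' h := ⟨a, a', h, rfl, rfl⟩

theorem Mor.id (A : Obj) : Mor A A id := Mor.basic (basic_of_inj (hom_id A) injective_id)

/-- Group elements are morphisms. -/
theorem Mor.of_mem (A : Obj) {k : A.V → A.V} (hk : k ∈ A.G) : Mor A A k := by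
  obtain ⟨k', hk', h1, h2⟩ := A.exists_inv hk
  refine Mor.basic (basic_of_inj ⟨A.s.map_adj k hk, ?_, ?_, ?_⟩ (A.s.inj k hk))
  · intro g hg
    exact ⟨k ∘ g ∘ k', A.s.comp_mem _ _ hk (A.s.comp_mem _ _ hg hk'), fun x => by simp [h1]⟩
  · intro g hg
    exact ⟨k' ∘ g ∘ k, A.s.comp_mem _ _ hk' (A.s.comp_mem _ _ hg hk), fun x => by simp [h2]⟩
  · intro a a' h
    exact ⟨k' a, k' a', A.s.map_adj k' hk' _ _ h, h2 a, h2 a'⟩

/-- The fibre product. -/
@[reducible] def PB (B D : Obj) {α : Type} (f : B.V → α) (h : D.V → α) : Obj where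
  V := {p : B.V × D.V // f p.1 = h p.2}
  fin := inferInstance
  s :=
    { adj := fun p p' => B.adj p.1.1 p'.1.1 ∧ D.adj p.1.2 p'.1.2
      G := {F | ∃ g₁ ∈ B.G, ∃ g₂ ∈ D.G, ∀ p, (F p).1 = (g₁ p.1.1, g₂ p.1.2)}
      refl := fun p => ⟨B.s.refl _, D.s.refl _⟩
      symm := fun p p' h => ⟨B.s.symm _ _ h.1, D.s.symm _ _ h.2⟩
      id_mem := ⟨id, B.s.id_mem, id, D.s.id_mem, fun _ => rfl⟩
      comp_mem := by
        rintro F F' ⟨g₁, h₁, g₂, h₂, hF⟩ ⟨g₁', h₁', g₂', h₂', hF'⟩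
        exact ⟨g₁ ∘ g₁', B.s.comp_mem _ _ h₁ h₁', g₂ ∘ g₂', D.s.comp_mem _ _ h₂ h₂',
          fun p => by simp [hF, hF']⟩
      inj := by
        rintro F ⟨g₁, h₁, g₂, h₂, hF⟩ p p' hp
        have := congrArg Subtype.val hp
        rw [hF, hF, Prod.mk.injEq] at this
        exact Subtype.ext (Prod.ext (B.s.inj _ h₁ this.1) (D.s.inj _ h₂ this.2))
      map_adj := by
        rintro F ⟨g₁, h₁, g₂, h₂, hF⟩ p p' hp
        rw [hF, hF]
        exact ⟨B.s.map_adj _ h₁ _ _ hp.1, D.s.map_adj _ h₂ _ _ hp.2⟩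
      free := by
        rintro F ⟨g₁, h₁, g₂, h₂, hF⟩ p hp
        have := congrArg Subtype.val hp
        rw [hF] at this
        funext p'
        apply Subtype.ext
        rw [hF]
        exact Prod.ext (B.fix h₁ (congrArg Prod.fst this) _) (D.fix h₂ (congrArg Prod.snd this) _) }

/-- A pair of group elements acting on the fibre product. -/
theorem PB.exists_mem {B D : Obj} {α : Type} {f : B.V → α} {h : D.V → α}
    {g₁ : B.V → B.V} (h₁ : g₁ ∈ B.G) {g₂ : D.V → D.V} (h₂ : g₂ ∈ D.G)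
    (hw : ∀ b d, f b = h d → f (g₁ b) = h (g₂ d)) :
    ∃ F ∈ (PB B D f h).G, ∀ p, (F p).1 = (g₁ p.1.1, g₂ p.1.2) :=
  ⟨fun p => ⟨(g₁ p.1.1, g₂ p.1.2), hw _ _ p.2⟩, ⟨g₁, h₁, g₂, h₂, fun _ => rfl⟩, fun _ => rfl⟩

def pbMap {B B₁ : Obj} (D : Obj) {α : Type} (f : B.V → B₁.V) (t : B₁.V → α) (h : D.V → α) :
    (PB B D (t ∘ f) h).V → (PB B₁ D t h).V := fun p => ⟨(f p.1.1, p.1.2), p.2⟩

theorem pbMap_basic {B B₁ : Obj} (D : Obj) {α : Type} {f : B.V → B₁.V} (hf : Basic B B₁ f)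
    (t : B₁.V → α) {h : D.V → α} (hh : Surjective h) :
    Basic (PB B D (t ∘ f) h) (PB B₁ D t h) (pbMap D f t h) where
  hom :=
    { map_adj := fun p p' hp => ⟨hf.hom.map_adj _ _ hp.1, hp.2⟩
      down := by
        rintro F ⟨g₁, h₁, g₂, h₂, hF⟩
        obtain ⟨g, hg, hfg⟩ := hf.hom.down g₁ h₁
        obtain ⟨Ψ, hΨ, hΨ'⟩ := PB.exists_mem (f := t) (h := h) hg h₂ (by
          intro b₁ d hbd
          obtain ⟨b, rfl⟩ := hf.hom.surj b₁
          have := (F ⟨(b, d), hbd⟩).2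
          rw [hF] at this
          simpa [hfg] using this)
        refine ⟨Ψ, hΨ, fun p => Subtype.ext ?_⟩
        rw [hΨ']
        simp [pbMap, hF, hfg]
      up := by
        rintro Ψ ⟨g, hg, g₂, h₂, hΨ⟩
        obtain ⟨g₁, h₁, hfg⟩ := hf.hom.up g hg
        obtain ⟨F, hF, hF'⟩ := PB.exists_mem (f := t ∘ f) (h := h) h₁ h₂ (by
          intro b d hbd
          have := (Ψ ⟨(f b, d), hbd⟩).2
          rw [hΨ] at this
          simpa [hfg] using this)
        refine ⟨F, hF, fun p => Subtype.ext ?_⟩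
        rw [hΨ]
        simp [pbMap, hF', hfg]
      edge := by
        rintro ⟨⟨b₁, d⟩, hp⟩ ⟨⟨b₁', d'⟩, hp'⟩ ⟨hb, hd⟩
        obtain ⟨b, b', hbb, rfl, rfl⟩ := hf.hom.edge b₁ b₁' hb
        exact ⟨⟨(b, d), hp⟩, ⟨(b', d'), hp'⟩, ⟨hbb, hd⟩, rfl, rfl⟩ }
  orb := by
    rintro ⟨⟨b, d⟩, hp⟩ ⟨⟨b', d'⟩, hp'⟩ he
    have he' := congrArg Subtype.val he
    simp only [pbMap, Prod.mk.injEq] at he'
    obtain ⟨hb, rfl⟩ := he'
    obtain ⟨g, hg, hc⟩ := hf.orb b b' hb
    have hfix : ∀ x, f (g x) = f x := hf.hom.fix hg (hc.eq.symm.trans hb)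
    obtain ⟨F, hF, hF'⟩ := PB.exists_mem (f := t ∘ f) (h := h) hg D.s.id_mem (by
      intro b d hbd
      simpa [hfix] using hbd)
    refine ⟨F, hF, ?_⟩
    have := FC.transfer (B' := PB B D (t ∘ f) h) (q' := pbMap D f t h) hc
      (fun u hu => ⟨(u, d), by simpa [← hu] using hp⟩)
      (fun u v hu hv huv => ⟨⟨huv, D.s.refl _⟩, Subtype.ext (by simp [pbMap, ← hu, ← hv])⟩)
    convert this using 1
    exact Subtype.ext (hF' _)
  fill := by
    intro p
    obtain ⟨a₀, ha₀⟩ := hf.fill p.1.1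
    obtain ⟨d₀, hd₀⟩ := hh (t a₀)
    refine ⟨⟨(a₀, d₀), hd₀.symm⟩, ?_⟩
    rintro ⟨⟨b, d⟩, hp⟩ ⟨⟨b', d'⟩, hp'⟩ he he'
    have h1 := congrArg Subtype.val he
    have h2 := congrArg Subtype.val he'
    simp only [pbMap, Prod.mk.injEq] at h1 h2
    obtain ⟨hb, rfl⟩ := h1
    obtain ⟨hb', rfl⟩ := h2
    exact FC.transfer (B' := PB B D (t ∘ f) h) (q' := pbMap D f t h) (ha₀ b b' hb hb')
      (fun u hu => ⟨(u, d'), by simpa [← hu] using hp⟩)
      (fun u v hu hv huv => ⟨⟨huv, D.s.refl _⟩, Subtype.ext (by simp [pbMap, ← hu, ← hv])⟩)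

theorem pbMap_mor {B B₁ : Obj} (D : Obj) {α : Type} {f : B.V → B₁.V} (hf : Mor B B₁ f)
    {h : D.V → α} (hh : Surjective h) :
    ∀ t : B₁.V → α, Mor (PB B D (t ∘ f) h) (PB B₁ D t h) (pbMap D f t h) := by
  induction hf with
  | basic hf => exact fun t => Mor.basic (pbMap_basic D hf t hh)
  | @comp C B A p q _ _ ih1 ih2 => exact fun t => Mor.comp (ih1 (t ∘ q)) (ih2 t)

theorem pb_snd {B D A : Obj} {f : B.V → A.V} {h : D.V → A.V} (hf : Mor B A f) (hh : Hom D A h) :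
    Mor (PB B D f h) D (fun p => p.1.2) := by
  have h1 := pbMap_mor D hf hh.surj id
  have h2 : Basic (PB A D id h) D (fun p => p.1.2) := by
    refine basic_of_inj ⟨fun p p' hp => hp.2, ?_, ?_, ?_⟩ ?_
    · rintro F ⟨g₁, h₁, g₂, h₂, hF⟩
      exact ⟨g₂, h₂, fun p => by rw [hF]⟩
    · intro g₂ h₂
      obtain ⟨g, hg, hgg⟩ := hh.down g₂ h₂
      obtain ⟨F, hF, hF'⟩ := PB.exists_mem (f := id) (h := h) hg h₂ (by
        intro b d hbd
        simp only [id] at hbd ⊢
        rw [hgg, hbd])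
      exact ⟨F, hF, fun p => by rw [hF']⟩
    · intro d d' hd
      exact ⟨⟨(h d, d), rfl⟩, ⟨(h d', d'), rfl⟩, ⟨hh.map_adj _ _ hd, hd⟩, rfl, rfl⟩
    · rintro ⟨⟨a, d⟩, hp⟩ ⟨⟨a', d'⟩, hp'⟩ he
      simp only [id] at hp hp' he
      subst he hp hp'
      rfl
  exact Mor.comp h1 (Mor.basic h2)

theorem pb_fst {B D A : Obj} {f : B.V → A.V} {h : D.V → A.V} (hf : Hom B A f) (hh : Mor D A h) :
    Mor (PB B D f h) B (fun p => p.1.1) := by
  have h1 := pb_snd hh hf
  have h2 : Basic (PB B D f h) (PB D B h f) (fun p => ⟨(p.1.2, p.1.1), p.2.symm⟩) := by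
    refine basic_of_inj ⟨fun p p' hp => ⟨hp.2, hp.1⟩, ?_, ?_, ?_⟩ ?_
    · rintro F ⟨g₁, h₁, g₂, h₂, hF⟩
      obtain ⟨Ψ, hΨ, hΨ'⟩ := PB.exists_mem (f := h) (h := f) h₂ h₁ (by
        intro d b hbd
        have := (F ⟨(b, d), hbd.symm⟩).2
        rw [hF] at this
        exact this.symm)
      exact ⟨Ψ, hΨ, fun p => Subtype.ext (by rw [hΨ']; simp [hF])⟩
    · rintro Ψ ⟨g₂, h₂, g₁, h₁, hΨ⟩
      obtain ⟨F, hF, hF'⟩ := PB.exists_mem (f := f) (h := h) h₁ h₂ (by
        intro b d hbd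
        have := (Ψ ⟨(d, b), hbd.symm⟩).2
        rw [hΨ] at this
        exact this.symm)
      exact ⟨F, hF, fun p => Subtype.ext (by rw [hΨ]; simp [hF'])⟩
    · rintro ⟨⟨d, b⟩, hp⟩ ⟨⟨d', b'⟩, hp'⟩ ⟨h1, h2⟩
      exact ⟨⟨(b, d), hp.symm⟩, ⟨(b', d'), hp'.symm⟩, ⟨h2, h1⟩, rfl, rfl⟩
    · rintro ⟨⟨b, d⟩, hp⟩ ⟨⟨b', d'⟩, hp'⟩ he
      have := congrArg Subtype.val he
      simp only [Prod.mk.injEq] at this
      obtain ⟨rfl, rfl⟩ := this
      rfl
  exact Mor.comp (Mor.basic h2) h1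

end Pool.Agent.Work.MP_df5cf0_gt
end

-- merged part: Pool.Agent.Work.MP_df5cf0_gt.Constr
section
set_option autoImplicit false

namespace Pool.Agent.Work.MP_df5cf0_gt

open Function Relation

/-! ### Subdivision -/

def std {α : Type} : α ⊕ (α × α × Bool) → α
  | Sum.inl a => a
  | Sum.inr (a, b, i) => if i then b else a

def act {α : Type} (g : α → α) : α ⊕ (α × α × Bool) → α ⊕ (α × α × Bool)
  | Sum.inl a => Sum.inl (g a)
  | Sum.inr (a, b, i) => Sum.inr (g a, g b, i)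

theorem std_act {α : Type} (g : α → α) (v : α ⊕ (α × α × Bool)) : std (act g v) = g (std v) := by
  rcases v with a | ⟨a, b, i⟩
  · rfl
  · cases i <;> rfl

/-- Every ordered pair of vertices gets two new vertices. -/
@[reducible] def Sub (A : Obj) : Obj where
  V := A.V ⊕ (A.V × A.V × Bool)
  fin := inferInstance
  s :=
    { adj := fun u v => u = Sum.inl (std v) ∨ v = Sum.inl (std u) ∨
        ∃ a b i j, u = Sum.inr (a, b, i) ∧ v = Sum.inr (a, b, j) ∧ (i = j ∨ A.adj a b)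
      G := {F | ∃ g ∈ A.G, F = act g}
      refl := by
        rintro (a | ⟨a, b, i⟩)
        · exact Or.inl rfl
        · exact Or.inr (Or.inr ⟨a, b, i, i, rfl, rfl, Or.inl rfl⟩)
      symm := by
        rintro u v (h | h | ⟨a, b, i, j, h1, h2, h3⟩)
        · exact Or.inr (Or.inl h)
        · exact Or.inl h
        · exact Or.inr (Or.inr ⟨a, b, j, i, h2, h1, h3.imp Eq.symm id⟩)
      id_mem := ⟨id, A.s.id_mem, by
        funext v
        rcases v with a | ⟨a, b, i⟩ <;> rfl⟩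
      comp_mem := by
        rintro _ _ ⟨g, hg, rfl⟩ ⟨h, hh, rfl⟩
        refine ⟨g ∘ h, A.s.comp_mem _ _ hg hh, ?_⟩
        funext v
        rcases v with a | ⟨a, b, i⟩ <;> rfl
      inj := by
        rintro _ ⟨g, hg, rfl⟩ (a | ⟨a, b, i⟩) (a' | ⟨a', b', i'⟩) h
        · simp only [act, Sum.inl.injEq] at h
          rw [A.s.inj g hg h]
        · simp [act] at h
        · simp [act] at h
        · simp only [act, Sum.inr.injEq, Prod.mk.injEq] at h
          rw [A.s.inj g hg h.1, A.s.inj g hg h.2.1, h.2.2]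
      map_adj := by
        rintro _ ⟨g, hg, rfl⟩ u v (h | h | ⟨a, b, i, j, rfl, rfl, h3⟩)
        · left
          rw [std_act, h]
          rfl
        · right; left
          rw [std_act, h]
          rfl
        · exact Or.inr (Or.inr ⟨g a, g b, i, j, rfl, rfl, h3.imp id (A.s.map_adj g hg _ _)⟩)
      free := by
        rintro _ ⟨g, hg, rfl⟩ u hu
        have : g (std u) = std u := by rw [← std_act g u, hu]
        rw [A.s.free g hg _ this]
        funext v
        rcases v with a | ⟨a, b, i⟩ <;> rfl }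

open Classical in
noncomputable def kap {α : Type} (O : Set (α × α)) (β : Bool) : α ⊕ (α × α × Bool) → α
  | Sum.inl a => a
  | Sum.inr (a, b, i) => if (a, b) ∈ O then (if β then b else a) else (if i then b else a)

theorem kap_empty {α : Type} (β : Bool) (v : α ⊕ (α × α × Bool)) : kap ∅ β v = std v := by
  rcases v with a | ⟨a, b, i⟩
  · rfl
  · simp [kap, std]

theorem kap_adj (A : Obj) (O : Set (A.V × A.V)) (β : Bool) (hO : ∀ a b, (a, b) ∈ O → A.adj a b)
    (v : (Sub A).V) : A.adj (std v) (kap O β v) := by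
  rcases v with a | ⟨a, b, i⟩
  · exact A.s.refl _
  · by_cases h : (a, b) ∈ O
    · have h1 := hO a b h
      have h2 := A.s.symm _ _ h1
      cases i <;> cases β <;> simp [kap, std, h, A.s.refl, h1, h2]
    · simp [kap, std, h, A.s.refl]

theorem kap_basic (A : Obj) (O : Set (A.V × A.V)) (β : Bool)
    (hO : ∀ a b, (a, b) ∈ O → A.adj a b)
    (hinv : ∀ g ∈ A.G, ∀ a b, (g a, g b) ∈ O ↔ (a, b) ∈ O) : Basic (Sub A) A (kap O β) := by
  have hact : ∀ g ∈ A.G, ∀ v, kap O β (act g v) = g (kap O β v) := by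
    rintro g hg (a | ⟨a, b, i⟩)
    · rfl
    · by_cases h : (a, b) ∈ O
      · have h' := (hinv g hg a b).2 h
        cases β <;> simp [act, kap, h, h']
      · have h' := mt (hinv g hg a b).1 h
        cases i <;> simp [act, kap, h, h']
  have hconn : ∀ v, FC (Sub A) (kap O β) v (Sum.inl (kap O β v)) := by
    rintro (a | ⟨a, b, i⟩)
    · exact FC.refl _
    · by_cases h : (a, b) ∈ O
      · refine FC.trans (b' := Sum.inr (a, b, β)) (FC.single ?_ ?_) (FC.single ?_ rfl |>.trans ?_)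
        · exact Or.inr (Or.inr ⟨a, b, i, β, rfl, rfl, Or.inr (hO a b h)⟩)
        · simp [kap, h]
        · exact (Sub A).s.refl _
        · refine FC.single (Or.inr (Or.inl ?_)) ?_
          · simp [kap, std, h]
          · simp [kap, h]
      · refine FC.single (Or.inr (Or.inl ?_)) rfl
        simp [kap, std, h]
  refine basic_of_mono ⟨?_, ?_, ?_, ?_⟩ ?_
  · rintro u v (h | h | ⟨a, b, i, j, rfl, rfl, h3⟩)
    · rw [h]
      exact kap_adj A O β hO v
    · rw [h]
      exact A.s.symm _ _ (kap_adj A O β hO u)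
    · by_cases h : (a, b) ∈ O
      · simp [kap, h, A.s.refl]
      · rcases h3 with rfl | h3
        · exact A.s.refl _
        · have h2 := A.s.symm _ _ h3
          cases i <;> cases j <;> simp [kap, h, A.s.refl, h3, h2]
  · rintro _ ⟨g, hg, rfl⟩
    exact ⟨g, hg, hact g hg⟩
  · intro g hg
    exact ⟨act g, ⟨g, hg, rfl⟩, hact g hg⟩
  · intro a b hab
    by_cases h : (a, b) ∈ O
    · cases β
      · exact ⟨Sum.inr (a, b, true), Sum.inl b, Or.inr (Or.inl rfl), by simp [kap, h], rfl⟩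
      · exact ⟨Sum.inl a, Sum.inr (a, b, false), Or.inl rfl, rfl, by simp [kap, h]⟩
    · exact ⟨Sum.inr (a, b, false), Sum.inr (a, b, true),
        Or.inr (Or.inr ⟨a, b, false, true, rfl, rfl, Or.inr hab⟩), by simp [kap, h],
        by simp [kap, h]⟩
  · intro v v' h
    refine (hconn v).trans ?_
    rw [h]
    exact (hconn v').symm

theorem std_basic (A : Obj) : Basic (Sub A) A std := by
  have := kap_basic A ∅ true (by simp) (by simp)
  rwa [show kap (∅ : Set (A.V × A.V)) true = std from funext (kap_empty true)] at this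

/-- Around every vertex of the subdivision there is a collapse sending its star to a point. -/
theorem exists_kap (A : Obj) (v : (Sub A).V) :
    ∃ κ : (Sub A).V → A.V, Basic (Sub A) A κ ∧ (∀ u, A.adj (std u) (κ u)) ∧
      (∀ u, (Sub A).adj u v → κ u = std v) ∧
      ∀ u, κ u = std u ∨ ∃ g ∈ A.G, ∃ a b, A.adj a (std v) ∧ A.adj b (std v) ∧
        κ u = g a ∧ std u = g b := by
  have hstd : (∀ u, (Sub A).adj u v → std u = std v) → ∃ κ : (Sub A).V → A.V,
      Basic (Sub A) A κ ∧ (∀ u, A.adj (std u) (κ u)) ∧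
      (∀ u, (Sub A).adj u v → κ u = std v) ∧
      ∀ u, κ u = std u ∨ ∃ g ∈ A.G, ∃ a b, A.adj a (std v) ∧ A.adj b (std v) ∧
        κ u = g a ∧ std u = g b := fun h =>
    ⟨std, std_basic A, fun u => A.s.refl _, h, fun u => Or.inl rfl⟩
  rcases v with a | ⟨a, b, i⟩
  · apply hstd
    rintro u (h | h | ⟨a', b', i, j, -, h2, -⟩)
    · rw [h]; rfl
    · simp only [Sum.inl.injEq] at h
      exact h.symm
    · simp at h2
  · by_cases hab : A.adj a b
    · let O : Set (A.V × A.V) := {p | ∃ g ∈ A.G, p = (g a, g b)}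
      have hO : ∀ a' b', (a', b') ∈ O → A.adj a' b' := by
        rintro a' b' ⟨g, hg, h⟩
        simp only [Prod.mk.injEq] at h
        rw [h.1, h.2]
        exact A.s.map_adj g hg _ _ hab
      have hinv : ∀ g ∈ A.G, ∀ a' b', (g a', g b') ∈ O ↔ (a', b') ∈ O := by
        intro g hg a' b'
        constructor
        · rintro ⟨k, hk, h⟩
          simp only [Prod.mk.injEq] at h
          obtain ⟨g', hg', h1, -⟩ := A.exists_inv hg
          exact ⟨g' ∘ k, A.s.comp_mem _ _ hg' hk, by simp [← h.1, ← h.2, h1]⟩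
        · rintro ⟨k, hk, h⟩
          simp only [Prod.mk.injEq] at h
          exact ⟨g ∘ k, A.s.comp_mem _ _ hg hk, by simp [h.1, h.2]⟩
      have hmem : (a, b) ∈ O := ⟨id, A.s.id_mem, rfl⟩
      refine ⟨kap O i, kap_basic A O i hO hinv, kap_adj A O i hO, ?_, ?_⟩
      · rintro u (h | h | ⟨a', b', i', j, rfl, h2, -⟩)
        · rw [h]; rfl
        · simp at h
        · simp only [Sum.inr.injEq, Prod.mk.injEq] at h2
          obtain ⟨rfl, rfl, rfl⟩ := h2
          simp [kap, std, hmem]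
      · have ha : A.adj a (std (Sum.inr (a, b, i))) := by
          cases i
          · exact A.s.refl _
          · exact hab
        have hb : A.adj b (std (Sum.inr (a, b, i))) := by
          cases i
          · exact A.s.symm _ _ hab
          · exact A.s.refl _
        rintro (a' | ⟨a', b', j⟩)
        · exact Or.inl rfl
        · by_cases h : (a', b') ∈ O
          · right
            obtain ⟨g, hg, h'⟩ := id h
            simp only [Prod.mk.injEq] at h'
            obtain ⟨rfl, rfl⟩ := h'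
            refine ⟨g, hg, if i then b else a, if j then b else a, ?_, ?_, ?_, ?_⟩
            · split_ifs <;> assumption
            · split_ifs <;> assumption
            · simp only [kap, h, if_true]
              split_ifs <;> rfl
            · simp only [std]
              split_ifs <;> rfl
          · left
            simp [kap, std, h]
    · apply hstd
      rintro u (h | h | ⟨a', b', i', j, rfl, h2, h3⟩)
      · rw [h]; rfl
      · simp at h
      · simp only [Sum.inr.injEq, Prod.mk.injEq] at h2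
        obtain ⟨rfl, rfl, rfl⟩ := h2
        rcases h3 with rfl | h3
        · rfl
        · exact absurd h3 hab

theorem sub_two_step (A : Obj) {u v w : (Sub A).V} (h1 : (Sub A).adj u v) (h2 : (Sub A).adj v w) :
    A.adj (std u) (std w) := by
  rcases v with a | ⟨a, b, i⟩
  · have key : ∀ u, (Sub A).adj u (Sum.inl a) → std u = a := by
      rintro u (h | h | ⟨a', b', i, j, -, h2, -⟩)
      · rw [h]; rfl
      · simp only [Sum.inl.injEq] at h
        exact h.symm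
      · simp at h2
    rw [key u h1, key w ((Sub A).s.symm _ _ h2)]
    exact A.s.refl _
  · have key : ∀ u, (Sub A).adj u (Sum.inr (a, b, i)) →
        std u = std (Sum.inr (a, b, i)) ∨ (A.adj a b ∧ (std u = a ∨ std u = b)) := by
      rintro u (h | h | ⟨a', b', i', j, rfl, h2, h3⟩)
      · left; rw [h]; rfl
      · simp at h
      · simp only [Sum.inr.injEq, Prod.mk.injEq] at h2
        obtain ⟨rfl, rfl, rfl⟩ := h2
        rcases h3 with rfl | h3
        · exact Or.inl rfl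
        · right
          refine ⟨h3, ?_⟩
          cases i' <;> simp [std]
    have hs : std (Sum.inr (a, b, i)) = a ∨ std (Sum.inr (a, b, i)) = b := by
      cases i <;> simp [std]
    rcases key u h1 with hu | ⟨hab, hu⟩ <;>
      rcases key w ((Sub A).s.symm _ _ h2) with hw | ⟨hab', hw⟩
    · rw [hu, hw]; exact A.s.refl _
    · rw [hu]
      have := A.s.symm _ _ hab'
      rcases hs with hs | hs <;> rcases hw with hw | hw <;> rw [hs, hw] <;>
        first | assumption | exact A.s.refl _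
    · rw [hw]
      have := A.s.symm _ _ hab
      rcases hs with hs | hs <;> rcases hu with hu | hu <;> rw [hs, hu] <;>
        first | assumption | exact A.s.refl _
    · have := A.s.symm _ _ hab
      rcases hu with hu | hu <;> rcases hw with hw | hw <;> rw [hu, hw] <;>
        first | assumption | exact A.s.refl _

/-! ### Unwrapping -/

/-- The unwrapping of `A` along the edge function `c`, filled over the orbit of `a₀`. -/
@[reducible] def Unw (A : Obj) (c : A.V → A.V → ZMod 2) (hc0 : ∀ a, c a a = 0)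
    (hcs : ∀ a b, c a b = c b a) (a₀ : A.V) : Obj where
  V := A.V × ((A.V → A.V) → ZMod 2)
  fin := inferInstance
  s :=
    { adj := fun p q => A.adj p.1 q.1 ∧
        ((∀ h : A.V → A.V, q.2 h = p.2 h + c (h p.1) (h q.1)) ∨ (p.1 = q.1 ∧ ∃ g ∈ A.G, p.1 = g a₀))
      G := {F | ∃ g ∈ A.G, ∃ k : (A.V → A.V) → ZMod 2,
        ∀ p, F p = (g p.1, fun h => k h + p.2 (h ∘ g))}
      refl := fun p => ⟨A.s.refl _, Or.inl fun h => by simp [hc0]⟩
      symm := by
        rintro p q ⟨h1, h2 | ⟨h2, g, hg, h3⟩⟩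
        · refine ⟨A.s.symm _ _ h1, Or.inl fun h => ?_⟩
          rw [h2 h, hcs (h q.1), add_assoc, CharTwo.add_self_eq_zero, add_zero]
        · exact ⟨A.s.symm _ _ h1, Or.inr ⟨h2.symm, g, hg, h2 ▸ h3⟩⟩
      id_mem := ⟨id, A.s.id_mem, 0, fun p => by simp⟩
      comp_mem := by
        rintro F F' ⟨g, hg, k, hF⟩ ⟨g', hg', k', hF'⟩
        refine ⟨g ∘ g', A.s.comp_mem _ _ hg hg', fun h => k h + k' (h ∘ g), fun p => ?_⟩
        simp [hF, hF', add_assoc, Function.comp_assoc]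
      inj := by
        rintro F ⟨g, hg, k, hF⟩ p q hpq
        rw [hF, hF, Prod.mk.injEq] at hpq
        refine Prod.ext (A.s.inj g hg hpq.1) ?_
        funext h
        obtain ⟨g', -, h1, -⟩ := A.exists_inv hg
        have := congrFun hpq.2 (h ∘ g')
        have e : (h ∘ g') ∘ g = h := by funext x; simp [h1]
        simpa [e] using this
      map_adj := by
        rintro F ⟨g, hg, k, hF⟩ p q ⟨h1, h2 | ⟨h2, g', hg', h3⟩⟩
        · rw [hF, hF]
          refine ⟨A.s.map_adj g hg _ _ h1, Or.inl fun h => ?_⟩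
          simp [h2 (h ∘ g), add_assoc]
        · rw [hF, hF]
          exact ⟨A.s.map_adj g hg _ _ h1, Or.inr ⟨congrArg g h2, g ∘ g',
            A.s.comp_mem _ _ hg hg', congrArg g h3⟩⟩
      free := by
        rintro F ⟨g, hg, k, hF⟩ p hp
        rw [hF] at hp
        have h1 : g = id := A.s.free g hg _ (congrArg Prod.fst hp)
        subst h1
        have h2 : ∀ h, k h = 0 := fun h => by
          have := congrFun (congrArg Prod.snd hp) h
          simpa using this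
        funext q
        rw [hF]
        simp [h2] }

theorem unw_basic (A : Obj) (c : A.V → A.V → ZMod 2) (hc0 : ∀ a, c a a = 0)
    (hcs : ∀ a b, c a b = c b a) (a₀ : A.V) : Basic (Unw A c hc0 hcs a₀) A Prod.fst where
  hom :=
    { map_adj := fun _ _ h => h.1
      down := by
        rintro F ⟨g, hg, k, hF⟩
        exact ⟨g, hg, fun p => by rw [hF]⟩
      up := fun g hg => ⟨fun p => (g p.1, fun h => (0 : (A.V → A.V) → ZMod 2) h + p.2 (h ∘ g)),
        ⟨g, hg, 0, fun _ => rfl⟩, fun _ => rfl⟩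
      edge := fun a b hab => ⟨(a, 0), (b, fun h => c (h a) (h b)),
        ⟨hab, Or.inl fun h => by simp⟩, rfl, rfl⟩ }
  orb := by
    rintro ⟨a, s⟩ ⟨b, t⟩ h
    simp only at h
    subst h
    refine ⟨fun p => (id p.1, fun h => (s - t) h + p.2 (h ∘ id)),
      ⟨id, A.s.id_mem, s - t, fun _ => rfl⟩, ?_⟩
    simpa using FC.refl _
  fill := by
    intro _
    refine ⟨a₀, ?_⟩
    rintro ⟨a, s⟩ ⟨b, t⟩ h h'
    simp only at h h'
    subst h h'
    exact FC.single ⟨A.s.refl _, Or.inr ⟨rfl, id, A.s.id_mem, rfl⟩⟩ rfl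

/-! ### The path on four vertices, the point, and products with the path -/

def adj4 (i j : Fin 4) : Prop := (i : ℕ) ≤ j + 1 ∧ (j : ℕ) ≤ i + 1

instance : DecidableRel adj4 := fun i j => by unfold adj4; infer_instance

theorem adj4_refl (i : Fin 4) : adj4 i i := by unfold adj4; omega
theorem adj4_symm (i j : Fin 4) (h : adj4 i j) : adj4 j i := ⟨h.2, h.1⟩

theorem adj4_conn (i j : Fin 4) : ReflTransGen adj4 i j := by
  have h01 : ReflTransGen adj4 0 1 := ReflTransGen.single (by decide)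
  have h12 : ReflTransGen adj4 1 2 := ReflTransGen.single (by decide)
  have h23 : ReflTransGen adj4 2 3 := ReflTransGen.single (by decide)
  have h10 : ReflTransGen adj4 1 0 := ReflTransGen.single (by decide)
  have h21 : ReflTransGen adj4 2 1 := ReflTransGen.single (by decide)
  have h32 : ReflTransGen adj4 3 2 := ReflTransGen.single (by decide)
  have h0 : ∀ i, ReflTransGen adj4 i 0 := by
    intro i
    fin_cases i
    · exact ReflTransGen.refl
    · exact h10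
    · exact h21.trans h10
    · exact h32.trans (h21.trans h10)
  have h0' : ∀ i, ReflTransGen adj4 0 i := by
    intro i
    fin_cases i
    · exact ReflTransGen.refl
    · exact h01
    · exact h01.trans h12
    · exact h01.trans (h12.trans h23)
  exact (h0 i).trans (h0' j)

theorem adj4_miss (i : Fin 4) : ∃ z, ¬ adj4 z i := by revert i; decide

@[reducible] def P4 : Obj where
  V := Fin 4
  fin := inferInstance
  s :=
    { adj := adj4
      G := {id}
      refl := adj4_refl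
      symm := adj4_symm
      id_mem := rfl
      comp_mem := by rintro _ _ rfl rfl; rfl
      inj := by rintro _ rfl; exact injective_id
      map_adj := by rintro _ rfl _ _ h; exact h
      free := by rintro _ rfl _ _; rfl }

@[reducible] def Pt : Obj where
  V := Unit
  fin := inferInstance
  s :=
    { adj := fun _ _ => True
      G := {id}
      refl := fun _ => trivial
      symm := fun _ _ _ => trivial
      id_mem := rfl
      comp_mem := by rintro _ _ rfl rfl; rfl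
      inj := by rintro _ rfl; exact injective_id
      map_adj := by rintro _ rfl _ _ h; exact h
      free := by rintro _ rfl _ _; rfl }

theorem FC.of_adj4 {B : Obj} {α : Type} {q : B.V → α} (φ : Fin 4 → B.V)
    (hφ : ∀ i j, adj4 i j → B.adj (φ i) (φ j) ∧ q (φ i) = q (φ j)) (i j : Fin 4) :
    FC B q (φ i) (φ j) := by
  have := adj4_conn i j
  induction this with
  | refl => exact FC.refl _
  | tail _ h2 ih => exact ih.trans (FC.single (hφ _ _ h2).1 (hφ _ _ h2).2)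

theorem p4_pt_basic : Basic P4 Pt (fun _ => ()) := by
  refine basic_of_mono ⟨fun _ _ _ => trivial, ?_, ?_, ?_⟩ ?_
  · rintro _ rfl; exact ⟨id, rfl, fun _ => rfl⟩
  · rintro _ rfl; exact ⟨id, rfl, fun _ => rfl⟩
  · intro _ _ _; exact ⟨0, 0, adj4_refl _, rfl, rfl⟩
  · intro i j _
    exact FC.of_adj4 (B := P4) id (fun _ _ h => ⟨h, rfl⟩) i j

/-- The strong product with the path on four vertices. -/
@[reducible] def PZ (A : Obj) : Obj where
  V := A.V × Fin 4
  fin := inferInstance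
  s :=
    { adj := fun p q => A.adj p.1 q.1 ∧ adj4 p.2 q.2
      G := {F | ∃ g ∈ A.G, ∀ p, F p = (g p.1, p.2)}
      refl := fun p => ⟨A.s.refl _, adj4_refl _⟩
      symm := fun p q h => ⟨A.s.symm _ _ h.1, adj4_symm _ _ h.2⟩
      id_mem := ⟨id, A.s.id_mem, fun _ => rfl⟩
      comp_mem := by
        rintro F F' ⟨g, hg, hF⟩ ⟨g', hg', hF'⟩
        exact ⟨g ∘ g', A.s.comp_mem _ _ hg hg', fun p => by simp [hF, hF']⟩
      inj := by
        rintro F ⟨g, hg, hF⟩ p q h
        rw [hF, hF, Prod.mk.injEq] at h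
        exact Prod.ext (A.s.inj g hg h.1) h.2
      map_adj := by
        rintro F ⟨g, hg, hF⟩ p q h
        rw [hF, hF]
        exact ⟨A.s.map_adj g hg _ _ h.1, h.2⟩
      free := by
        rintro F ⟨g, hg, hF⟩ p h
        rw [hF] at h
        funext q
        rw [hF]
        exact Prod.ext (A.fix hg (congrArg Prod.fst h) _) rfl }

theorem pz_basic (A : Obj) : Basic (PZ A) A Prod.fst := by
  refine basic_of_mono ⟨fun _ _ h => h.1, ?_, ?_, ?_⟩ ?_
  · rintro F ⟨g, hg, hF⟩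
    exact ⟨g, hg, fun p => by rw [hF]⟩
  · intro g hg
    exact ⟨fun p => (g p.1, p.2), ⟨g, hg, fun _ => rfl⟩, fun _ => rfl⟩
  · intro a b h
    exact ⟨(a, 0), (b, 0), ⟨h, adj4_refl _⟩, rfl, rfl⟩
  · rintro ⟨a, i⟩ ⟨b, j⟩ h
    simp only at h
    subst h
    exact FC.of_adj4 (B := PZ A) (fun i => (a, i)) (fun _ _ h => ⟨⟨A.s.refl _, h⟩, rfl⟩) i j

/-! ### The dragging object -/

/-- Sub-object of the fibre product of `PZ A` and `C'` in which over `T × {z ≠ z₀}` only the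
points of `O` are kept. -/
@[reducible] def Drag (A C' : Obj) {α : Type} (u : A.V → α) (r : C'.V → α) (T : Set A.V)
    (hT : ∀ g ∈ A.G, ∀ a, g a ∈ T → a ∈ T) (z₀ : Fin 4) (O : Set C'.V) : Obj where
  V := {e : (A.V × Fin 4) × C'.V // u e.1.1 = r e.2 ∧ (e.1.1 ∈ T → e.1.2 ≠ z₀ → e.2 ∈ O)}
  fin := inferInstance
  s :=
    { adj := fun e e' => A.adj e.1.1.1 e'.1.1.1 ∧ adj4 e.1.1.2 e'.1.1.2 ∧ C'.adj e.1.2 e'.1.2 ∧
        (e.1.1.1 ∈ T → e.1.1.2 ≠ z₀ → e'.1.1.1 ∈ T → e'.1.1.2 ≠ z₀ → e.1.2 = e'.1.2)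
      G := {F | ∃ g ∈ A.G, ∃ g' ∈ C'.G, ∀ e, (F e).1 = ((g e.1.1.1, e.1.1.2), g' e.1.2)}
      refl := fun e => ⟨A.s.refl _, adj4_refl _, C'.s.refl _, fun _ _ _ _ => rfl⟩
      symm := fun e e' h => ⟨A.s.symm _ _ h.1, adj4_symm _ _ h.2.1, C'.s.symm _ _ h.2.2.1,
        fun h1 h2 h3 h4 => (h.2.2.2 h3 h4 h1 h2).symm⟩
      id_mem := ⟨id, A.s.id_mem, id, C'.s.id_mem, fun _ => rfl⟩
      comp_mem := by
        rintro F F' ⟨g₁, h₁, g₂, h₂, hF⟩ ⟨g₁', h₁', g₂', h₂', hF'⟩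
        exact ⟨g₁ ∘ g₁', A.s.comp_mem _ _ h₁ h₁', g₂ ∘ g₂', C'.s.comp_mem _ _ h₂ h₂',
          fun p => by simp [hF, hF']⟩
      inj := by
        rintro F ⟨g₁, h₁, g₂, h₂, hF⟩ p p' hp
        have := congrArg Subtype.val hp
        rw [hF, hF, Prod.mk.injEq, Prod.mk.injEq] at this
        exact Subtype.ext (Prod.ext (Prod.ext (A.s.inj _ h₁ this.1.1) this.1.2)
          (C'.s.inj _ h₂ this.2))
      map_adj := by
        rintro F ⟨g₁, h₁, g₂, h₂, hF⟩ p p' hp
        rw [hF, hF]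
        exact ⟨A.s.map_adj _ h₁ _ _ hp.1, hp.2.1, C'.s.map_adj _ h₂ _ _ hp.2.2.1,
          fun h1 h2 h3 h4 => congrArg g₂ (hp.2.2.2 (hT _ h₁ _ h1) h2 (hT _ h₁ _ h3) h4)⟩
      free := by
        rintro F ⟨g₁, h₁, g₂, h₂, hF⟩ p hp
        have := congrArg Subtype.val hp
        rw [hF] at this
        funext p'
        apply Subtype.ext
        rw [hF]
        exact Prod.ext (Prod.ext (A.fix h₁ (congrArg (fun x => x.1.1) this) _) rfl)
          (C'.fix h₂ (congrArg Prod.snd this) _) }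

theorem Drag.exists_mem {A C' : Obj} {α : Type} {u : A.V → α} {r : C'.V → α} {T : Set A.V}
    (hT : ∀ g ∈ A.G, ∀ a, g a ∈ T → a ∈ T) (z₀ : Fin 4) {O : Set C'.V}
    (hO : ∀ g' ∈ C'.G, ∀ y ∈ O, g' y ∈ O)
    {g : A.V → A.V} (hg : g ∈ A.G) {g' : C'.V → C'.V} (hg' : g' ∈ C'.G)
    (hw : ∀ a y, u a = r y → u (g a) = r (g' y)) :
    ∃ F ∈ (Drag A C' u r T hT z₀ O).G, ∀ e, (F e).1 = ((g e.1.1.1, e.1.1.2), g' e.1.2) :=
  ⟨fun e => ⟨((g e.1.1.1, e.1.1.2), g' e.1.2), hw _ _ e.2.1,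
    fun h1 h2 => hO _ hg' _ (e.2.2 (hT _ hg _ h1) h2)⟩, ⟨g, hg, g', hg', fun _ => rfl⟩,
    fun _ => rfl⟩

theorem drag_pb_basic {A C' : Obj} {α : Type} (u : A.V → α) (r : C'.V → α) {T : Set A.V}
    (hT : ∀ g ∈ A.G, ∀ a, g a ∈ T → a ∈ T) (z₀ : Fin 4) {O : Set C'.V}
    (hO : ∀ g' ∈ C'.G, ∀ y ∈ O, g' y ∈ O) :
    Basic (Drag A C' u r T hT z₀ O) (PB A C' u r) (fun e => ⟨(e.1.1.1, e.1.2), e.2.1⟩) := by
  refine basic_of_mono ⟨fun e e' h => ⟨h.1, h.2.2.1⟩, ?_, ?_, ?_⟩ ?_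
  · rintro F ⟨g, hg, g', hg', hF⟩
    obtain ⟨Ψ, hΨ, hΨ'⟩ := PB.exists_mem (f := u) (h := r) hg hg' (by
      intro a y hay
      have := (F ⟨((a, z₀), y), hay, fun _ h => absurd rfl h⟩).2.1
      rwa [hF] at this)
    exact ⟨Ψ, hΨ, fun e => Subtype.ext (by rw [hΨ']; simp [hF])⟩
  · rintro Ψ ⟨g, hg, g', hg', hΨ⟩
    obtain ⟨F, hF, hF'⟩ := Drag.exists_mem (u := u) (r := r) hT z₀ hO hg hg' (by
      intro a y hay
      have := (Ψ ⟨(a, y), hay⟩).2
      rwa [hΨ] at this)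
    exact ⟨F, hF, fun e => Subtype.ext (by rw [hΨ]; simp [hF'])⟩
  · rintro ⟨⟨a, y⟩, hp⟩ ⟨⟨a', y'⟩, hp'⟩ ⟨h1, h2⟩
    exact ⟨⟨((a, z₀), y), hp, fun _ h => absurd rfl h⟩, ⟨((a', z₀), y'), hp', fun _ h => absurd rfl h⟩,
      ⟨h1, adj4_refl _, h2, fun _ h => absurd rfl h⟩, rfl, rfl⟩
  · have key : ∀ (a : A.V) (z : Fin 4) (y : C'.V) (hp : u a = r y ∧ (a ∈ T → z ≠ z₀ → y ∈ O)),
        FC (Drag A C' u r T hT z₀ O) (α := (PB A C' u r).V) (fun e => ⟨(e.1.1.1, e.1.2), e.2.1⟩)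
          ⟨((a, z), y), hp⟩ ⟨((a, z₀), y), hp.1, fun _ h => absurd rfl h⟩ := by
      intro a z y hp
      by_cases hz : z = z₀
      · subst hz
        exact FC.refl _
      · exact FC.of_adj4 (B := Drag A C' u r T hT z₀ O)
          (fun i => ⟨((a, i), y), hp.1, fun h _ => hp.2 h hz⟩)
          (fun _ _ h => ⟨⟨A.s.refl _, h, C'.s.refl _, fun _ _ _ _ => rfl⟩, rfl⟩) z z₀
    rintro ⟨⟨⟨a, z⟩, y⟩, hp⟩ ⟨⟨⟨a', z'⟩, y'⟩, hp'⟩ he
    have := congrArg Subtype.val he
    simp only [Prod.mk.injEq] at this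
    obtain ⟨rfl, rfl⟩ := this
    exact (key a z y hp).trans (key a z' y hp').symm

theorem drag_pz_basic {A C' C : Obj} {u : A.V → C.V} {r : C'.V → C.V} (hu : Hom A C u)
    (hr : Basic C' C r) (c' : C'.V) {T : Set A.V}
    (hT : ∀ g ∈ A.G, ∀ a, g a ∈ T → a ∈ T) (z₀ : Fin 4)
    (hdeep : ∀ a ∈ T, ∃ g' ∈ C'.G, ∀ a', A.adj a a' → u a' = r (g' c')) :
    Basic (Drag A C' u r T hT z₀ {y | ∃ g' ∈ C'.G, y = g' c'}) (PZ A) (fun e => e.1.1) := by
  have hO : ∀ g' ∈ C'.G, ∀ y ∈ {y | ∃ g' ∈ C'.G, y = g' c'},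
      g' y ∈ {y | ∃ g' ∈ C'.G, y = g' c'} := by
    rintro g' hg' _ ⟨k, hk, rfl⟩
    exact ⟨g' ∘ k, C'.s.comp_mem _ _ hg' hk, rfl⟩
  -- connectedness of unrestricted fibres
  have htr : ∀ (a : A.V) (z : Fin 4) (y y' : C'.V) (hS : ¬ (a ∈ T ∧ z ≠ z₀)) (hy : u a = r y)
      (hc : FC C' r y y'),
      FC (Drag A C' u r T hT z₀ {y | ∃ g' ∈ C'.G, y = g' c'}) (fun e => e.1.1)
        ⟨((a, z), y), hy, fun h1 h2 => absurd ⟨h1, h2⟩ hS⟩
        ⟨((a, z), y'), hy.trans hc.eq, fun h1 h2 => absurd ⟨h1, h2⟩ hS⟩ := by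
    intro a z y y' hS hy hc
    exact FC.transfer (B' := Drag A C' u r T hT z₀ {y | ∃ g' ∈ C'.G, y = g' c'})
      (q' := fun e => e.1.1) hc
      (fun v hv => ⟨((a, z), v), hy.trans hv, fun h1 h2 => absurd ⟨h1, h2⟩ hS⟩)
      (fun v w hv hw hvw => ⟨⟨A.s.refl _, adj4_refl _, hvw,
        fun h1 h2 => absurd ⟨h1, h2⟩ hS⟩, rfl⟩)
  refine ⟨⟨fun e e' h => ⟨h.1, h.2.1⟩, ?_, ?_, ?_⟩, ?_, ?_⟩
  · rintro F ⟨g, hg, g', hg', hF⟩
    exact ⟨fun p => (g p.1, p.2), ⟨g, hg, fun _ => rfl⟩, fun e => by rw [hF]⟩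
  · rintro Ψ ⟨g, hg, hΨ⟩
    obtain ⟨k, hk, h1⟩ := hu.down g hg
    obtain ⟨g', hg', h2⟩ := hr.hom.up k hk
    obtain ⟨F, hF, hF'⟩ := Drag.exists_mem (u := u) (r := r) hT z₀ hO hg hg' (by
      intro a y hay
      rw [h1, h2, hay])
    exact ⟨F, hF, fun e => by rw [hΨ, hF']⟩
  · rintro ⟨a, z⟩ ⟨a', z'⟩ ⟨h1, h2⟩
    by_cases ha : a ∈ T
    · obtain ⟨g', hg', h3⟩ := hdeep a ha
      exact ⟨⟨((a, z), g' c'), h3 a (A.s.refl _), fun _ _ => ⟨g', hg', rfl⟩⟩,
        ⟨((a', z'), g' c'), h3 a' h1, fun _ _ => ⟨g', hg', rfl⟩⟩,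
        ⟨h1, h2, C'.s.refl _, fun _ _ _ _ => rfl⟩, rfl, rfl⟩
    by_cases ha' : a' ∈ T
    · obtain ⟨g', hg', h3⟩ := hdeep a' ha'
      exact ⟨⟨((a, z), g' c'), h3 a (A.s.symm _ _ h1), fun _ _ => ⟨g', hg', rfl⟩⟩,
        ⟨((a', z'), g' c'), h3 a' (A.s.refl _), fun _ _ => ⟨g', hg', rfl⟩⟩,
        ⟨h1, h2, C'.s.refl _, fun _ _ _ _ => rfl⟩, rfl, rfl⟩
    obtain ⟨y, y', hyy, hy, hy'⟩ := hr.hom.edge _ _ (hu.map_adj _ _ h1)
    exact ⟨⟨((a, z), y), hy.symm, fun h => absurd h ha⟩, ⟨((a', z'), y'), hy'.symm, fun h => absurd h ha'⟩,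
      ⟨h1, h2, hyy, fun h => absurd h ha⟩, rfl, rfl⟩
  · rintro ⟨⟨⟨a, z⟩, y⟩, hp⟩ ⟨⟨⟨a', z'⟩, y'⟩, hp'⟩ he
    simp only [Prod.mk.injEq] at he
    obtain ⟨rfl, rfl⟩ := he
    have hyy : r y = r y' := hp.1.symm.trans hp'.1
    have hk : ∀ k ∈ C'.G, r (k y') = r y' →
        ∃ F ∈ (Drag A C' u r T hT z₀ {y | ∃ g' ∈ C'.G, y = g' c'}).G,
          ∀ e, (F e).1 = ((id e.1.1.1, e.1.1.2), k e.1.2) := fun k hk hky =>
      Drag.exists_mem (u := u) (r := r) hT z₀ hO A.s.id_mem hk (by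
        intro a y hay
        rw [hr.hom.fix hk hky]
        exact hay)
    by_cases hS : a ∈ T ∧ z ≠ z₀
    · obtain ⟨g₁, h₁, e₁⟩ := hp.2 hS.1 hS.2
      obtain ⟨g₂, h₂, e₂⟩ := hp'.2 hS.1 hS.2
      simp only at e₁ e₂
      obtain ⟨g₃, h₃, e₃, -⟩ := C'.exists_inv h₂
      have hy : (g₁ ∘ g₃) y' = y := by simp [e₁, e₂, e₃]
      obtain ⟨F, hF, hF'⟩ := hk (g₁ ∘ g₃) (C'.s.comp_mem _ _ h₁ h₃) (by rw [hy, hyy])
      refine ⟨F, hF, ?_⟩
      have : F ⟨((a, z), y'), hp'⟩ = ⟨((a, z), y), hp⟩ := Subtype.ext (by rw [hF', hy]; rfl)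
      rw [this]
      exact FC.refl _
    · obtain ⟨k, hk', hc⟩ := hr.orb y y' hyy
      obtain ⟨F, hF, hF'⟩ := hk k hk' (hc.eq.symm.trans hyy)
      refine ⟨F, hF, ?_⟩
      have := htr a z y (k y') hS hp.1 hc
      convert this using 1
      exact Subtype.ext (hF' _)
  · intro p
    obtain ⟨c₀, hc₀⟩ := hr.fill (u p.1)
    obtain ⟨a₀, ha₀⟩ := hu.surj c₀
    refine ⟨(a₀, z₀), ?_⟩
    rintro ⟨⟨⟨a, z⟩, y⟩, hp⟩ ⟨⟨⟨a', z'⟩, y'⟩, hp'⟩ he he'
    simp only [Prod.mk.injEq] at he he'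
    obtain ⟨rfl, rfl⟩ := he
    obtain ⟨rfl, rfl⟩ := he'
    exact htr a' z' y y' (fun h => h.2 rfl) hp.1
      (hc₀ y y' (hp.1.symm.trans ha₀) (hp'.1.symm.trans ha₀))

/-! ### Transport to `Fin a` -/

@[reducible] def ofStr {a : ℕ} (S : Str (Fin a)) : Obj := ⟨Fin a, inferInstance, S⟩

theorem exists_code (B : Obj) :
    ∃ (S : Str (Fin (Nat.card B.V))) (e : Fin (Nat.card B.V) → B.V), Basic (ofStr S) B e := by
  let e : Fin (Nat.card B.V) ≃ B.V := (Finite.equivFin B.V).symm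
  let S : Str (Fin (Nat.card B.V)) :=
    { adj := fun i j => B.adj (e i) (e j)
      G := {g | ∃ g' ∈ B.G, ∀ i, e (g i) = g' (e i)}
      refl := fun _ => B.s.refl _
      symm := fun _ _ h => B.s.symm _ _ h
      id_mem := ⟨id, B.s.id_mem, fun _ => rfl⟩
      comp_mem := by
        rintro g h ⟨g', hg', e1⟩ ⟨h', hh', e2⟩
        exact ⟨g' ∘ h', B.s.comp_mem _ _ hg' hh', fun i => by simp [e1, e2]⟩
      inj := by
        rintro g ⟨g', hg', e1⟩ i j hij
        have := congrArg e hij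
        rw [e1, e1] at this
        exact e.injective (B.s.inj _ hg' this)
      map_adj := by
        rintro g ⟨g', hg', e1⟩ i j hij
        rw [e1, e1]
        exact B.s.map_adj _ hg' _ _ hij
      free := by
        rintro g ⟨g', hg', e1⟩ i hi
        have h1 := e1 i
        rw [hi] at h1
        funext j
        apply e.injective
        rw [e1]
        exact B.fix hg' h1.symm _ }
  refine ⟨S, e, basic_of_inj ⟨fun _ _ h => h, ?_, ?_, ?_⟩ e.injective⟩
  · rintro g ⟨g', hg', e1⟩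
    exact ⟨g', hg', e1⟩
  · intro g' hg'
    exact ⟨fun i => e.symm (g' (e i)), ⟨g', hg', fun i => by simp⟩, fun i => by simp⟩
  · intro b b' h
    refine ⟨e.symm b, e.symm b', ?_, by simp, by simp⟩
    show B.adj (e (e.symm b)) (e (e.symm b'))
    simpa using h

instance (a : ℕ) : Finite (Str (Fin a)) := by
  refine Finite.of_injective (fun S : Str (Fin a) => (S.adj, S.G)) ?_
  rintro ⟨adj, G, _, _, _, _, _, _, _⟩ ⟨adj', G', _, _, _, _, _, _, _⟩ h
  simp only [Prod.mk.injEq] at h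
  obtain ⟨rfl, rfl⟩ := h
  rfl

end Pool.Agent.Work.MP_df5cf0_gt
end

-- merged part: Pool.Agent.Work.MP_df5cf0_gt.Seq
section
set_option autoImplicit false

namespace Pool.Agent.Work.MP_df5cf0_gt

open Function Relation

/-! ### The generic sequence -/

abbrev Task (A : Obj) (s : ℕ) : Type :=
  Σ a : Fin (s + 1), Str (Fin a) × (Fin a → A.V)

theorem step_list (A : Obj) (s : ℕ) (l : List (Task A s)) :
    ∃ (A' : Obj) (b : A'.V → A.V), Mor A' A b ∧ ∀ t ∈ l, Mor (ofStr t.2.1) A t.2.2 →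
      ∃ g : A'.V → (ofStr t.2.1).V, Mor A' (ofStr t.2.1) g ∧ ∀ x, t.2.2 (g x) = b x := by
  induction l with
  | nil => exact ⟨A, id, Mor.id A, by simp⟩
  | cons t l ih =>
    obtain ⟨A', b, hb, hl⟩ := ih
    by_cases ht : Mor (ofStr t.2.1) A t.2.2
    · refine ⟨PB (ofStr t.2.1) A' t.2.2 b, b ∘ fun p => p.1.2,
        Mor.comp (pb_snd ht hb.hom) hb, ?_⟩
      intro t' ht' hm
      rcases List.mem_cons.1 ht' with rfl | ht'
      · exact ⟨fun p => p.1.1, pb_fst ht.hom hb, fun p => p.2⟩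
      · obtain ⟨g, hg, hgb⟩ := hl t' ht' hm
        exact ⟨g ∘ fun p => p.1.2, Mor.comp (pb_snd ht hb.hom) hg, fun p => hgb _⟩
    · refine ⟨A', b, hb, ?_⟩
      intro t' ht' hm
      rcases List.mem_cons.1 ht' with rfl | ht'
      · exact absurd hm ht
      · exact hl t' ht' hm

theorem step (A : Obj) (s : ℕ) :
    ∃ (A' : Obj) (b : A'.V → A.V), Mor A' A b ∧
      ∀ (B : Obj) (f : B.V → A.V), Nat.card B.V ≤ s → Mor B A f →
        ∃ g : A'.V → B.V, Mor A' B g ∧ ∀ x, f (g x) = b x := by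
  have : Fintype (Task A s) := Fintype.ofFinite _
  obtain ⟨A', b, hb, hl⟩ := step_list A s (Finset.univ : Finset (Task A s)).toList
  refine ⟨A', b, hb, fun B f hB hf => ?_⟩
  obtain ⟨S, e, he⟩ := exists_code B
  have hm : Mor (ofStr S) A (f ∘ e) := Mor.comp (Mor.basic he) hf
  obtain ⟨g, hg, hgb⟩ := hl ⟨⟨Nat.card B.V, Nat.lt_succ_of_le hB⟩, S, f ∘ e⟩ (by simp) hm
  exact ⟨e ∘ g, Mor.comp hg (Mor.basic he), hgb⟩

noncomputable def seq : ℕ → Obj
  | 0 => P4
  | n + 1 => (step (seq n) (n * Nat.card (seq n).V)).choose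

noncomputable def bond (n : ℕ) : (seq (n + 1)).V → (seq n).V :=
  (step (seq n) (n * Nat.card (seq n).V)).choose_spec.choose

theorem bond_mor (n : ℕ) : Mor (seq (n + 1)) (seq n) (bond n) :=
  (step (seq n) (n * Nat.card (seq n).V)).choose_spec.choose_spec.1

theorem bond_ext (n : ℕ) (B : Obj) (f : B.V → (seq n).V) (hB : Nat.card B.V ≤ n * Nat.card (seq n).V)
    (hf : Mor B (seq n) f) :
    ∃ g : (seq (n + 1)).V → B.V, Mor (seq (n + 1)) B g ∧ ∀ x, f (g x) = bond n x :=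
  (step (seq n) (n * Nat.card (seq n).V)).choose_spec.choose_spec.2 B f hB hf

/-- Threads of the inverse sequence. -/
structure Th where
  x : ∀ n, (seq n).V
  compat : ∀ n, bond n (x (n + 1)) = x n

theorem exists_low (n : ℕ) (a : (seq n).V) :
    ∃ x : ∀ m, (seq m).V, x n = a ∧ ∀ m < n, bond m (x (m + 1)) = x m := by
  classical
  have hne : ∀ m, Nonempty (seq m).V := by
    intro m
    induction m with
    | zero => exact ⟨(0 : Fin 4)⟩
    | succ m ih =>
      obtain ⟨b⟩ := ih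
      obtain ⟨c, -⟩ := (bond_mor m).hom.surj b
      exact ⟨c⟩
  induction n with
  | zero => exact ⟨Function.update (fun m => (hne m).some) 0 a, by simp, by simp⟩
  | succ n ih =>
    obtain ⟨x, hx, hc⟩ := ih (bond n a)
    refine ⟨Function.update x (n + 1) a, by simp, fun m hm => ?_⟩
    rcases Nat.lt_succ_iff_lt_or_eq.1 hm with hm | rfl
    · rw [Function.update_of_ne (by omega), Function.update_of_ne (by omega)]
      exact hc m hm
    · rw [Function.update_self, Function.update_of_ne (by omega), hx]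

noncomputable def extend (x : ∀ m, (seq m).V) (n : ℕ) : ∀ m, (seq m).V
  | 0 => x 0
  | m + 1 => if m + 1 ≤ n then x (m + 1) else ((bond_mor m).hom.surj (extend x n m)).choose

theorem proj_surj (n : ℕ) (a : (seq n).V) : ∃ t : Th, t.x n = a := by
  obtain ⟨x, hx, hc⟩ := exists_low n a
  have h1 : ∀ m ≤ n, extend x n m = x m := by
    intro m hm
    cases m with
    | zero => rfl
    | succ m => simp [extend, hm]
  refine ⟨⟨extend x n, fun m => ?_⟩, (h1 n le_rfl).trans hx⟩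
  by_cases hm : m + 1 ≤ n
  · rw [h1 _ hm, h1 m (by omega)]
    exact hc m (by omega)
  · simp only [extend, hm, if_false]
    exact ((bond_mor m).hom.surj (extend x n m)).choose_spec

/-- Adjacency of threads at level `n`. -/
def Near (n : ℕ) (t t' : Th) : Prop := (seq n).adj (t.x n) (t'.x n)

theorem Near.refl (n : ℕ) (t : Th) : Near n t t := (seq n).s.refl _
theorem Near.symm {n : ℕ} {t t' : Th} (h : Near n t t') : Near n t' t := (seq n).s.symm _ _ h

theorem Near.of_eq {n : ℕ} {t t' : Th} (h : t.x n = t'.x n) : Near n t t' := by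
  unfold Near; rw [h]; exact (seq n).s.refl _

theorem Near.mono {n m : ℕ} (hnm : n ≤ m) {t t' : Th} (h : Near m t t') : Near n t t' := by
  induction m, hnm using Nat.le_induction with
  | base => exact h
  | succ m _ ih =>
    apply ih
    have := (bond_mor m).hom.map_adj _ _ h
    rwa [t.compat, t'.compat] at this

/-- Maps from the thread space which factor through a morphism at level `n`. -/
def LMat (n : ℕ) (C : Obj) (u : Th → C.V) : Prop :=
  ∃ un : (seq n).V → C.V, Mor (seq n) C un ∧ ∀ t, u t = un (t.x n)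

def LM (C : Obj) (u : Th → C.V) : Prop := ∃ n, LMat n C u

theorem LMat.mono {n m : ℕ} (hnm : n ≤ m) {C : Obj} {u : Th → C.V} (h : LMat n C u) :
    LMat m C u := by
  induction m, hnm using Nat.le_induction with
  | base => exact h
  | succ m _ ih =>
    obtain ⟨un, hun, e⟩ := ih
    exact ⟨un ∘ bond m, Mor.comp (bond_mor m) hun, fun t => by simp [e, t.compat]⟩

theorem lm_proj (n : ℕ) : LM (seq n) (fun t => t.x n) := ⟨n, id, Mor.id _, fun _ => rfl⟩

theorem LM.comp {C C' : Obj} {u : Th → C.V} (h : LM C u) {r : C.V → C'.V} (hr : Mor C C' r) :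
    LM C' (fun t => r (u t)) := by
  obtain ⟨n, un, hun, e⟩ := h
  exact ⟨n, r ∘ un, Mor.comp hun hr, fun t => by simp [e]⟩

theorem LM.surj {C : Obj} {u : Th → C.V} (h : LM C u) : Surjective u := by
  obtain ⟨n, un, hun, e⟩ := h
  intro c
  obtain ⟨a, rfl⟩ := hun.hom.surj c
  obtain ⟨t, rfl⟩ := proj_surj n a
  exact ⟨t, e t⟩

theorem LM.near {C : Obj} {u : Th → C.V} (h : LM C u) :
    ∃ n, (∀ t t', Near n t t' → C.adj (u t) (u t')) ∧ ∀ t t', t.x n = t'.x n → u t = u t' := by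
  obtain ⟨n, un, hun, e⟩ := h
  refine ⟨n, fun t t' ht => ?_, fun t t' ht => by rw [e, e, ht]⟩
  rw [e, e]
  exact hun.hom.map_adj _ _ ht

/-- The extension property. -/
theorem LM.ext {C C' : Obj} {u : Th → C.V} (h : LM C u) {r : C'.V → C.V} (hr : Mor C' C r) :
    ∃ u' : Th → C'.V, LM C' u' ∧ ∀ t, r (u' t) = u t := by
  obtain ⟨n₀, h⟩ := h
  let n := max n₀ (Nat.card C'.V)
  obtain ⟨un, hun, e⟩ := h.mono (le_max_left n₀ (Nat.card C'.V))
  have hcard : Nat.card (PB C' (seq n) r un).V ≤ n * Nat.card (seq n).V := by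
    calc Nat.card (PB C' (seq n) r un).V ≤ Nat.card (C'.V × (seq n).V) :=
          Nat.card_le_card_of_injective Subtype.val Subtype.val_injective
      _ = Nat.card C'.V * Nat.card (seq n).V := Nat.card_prod _ _
      _ ≤ n * Nat.card (seq n).V := Nat.mul_le_mul_right _ (le_max_right _ _)
  obtain ⟨g, hg, hgb⟩ := bond_ext n _ _ hcard (pb_snd hr hun.hom)
  refine ⟨fun t => (g (t.x (n + 1))).1.1,
    ⟨n + 1, (fun p => p.1.1) ∘ g, Mor.comp hg (pb_fst hr.hom hun), fun _ => rfl⟩, fun t => ?_⟩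
  rw [(g (t.x (n + 1))).2, e]
  congr 1
  exact (hgb _).trans (t.compat n)

theorem near_two (n : ℕ) : ∃ m, ∀ t t' t'', Near m t t' → Near m t' t'' → Near n t t'' := by
  obtain ⟨w, hw, e⟩ := (lm_proj n).ext (Mor.basic (std_basic (seq n)))
  obtain ⟨m, hm, -⟩ := hw.near
  refine ⟨m, fun t t' t'' h1 h2 => ?_⟩
  have := sub_two_step (seq n) (hm _ _ h1) (hm _ _ h2)
  rwa [e, e] at this

theorem near_three (n : ℕ) :
    ∃ m, ∀ t t' t'' t''', Near m t t' → Near m t' t'' → Near m t'' t''' → Near n t t''' := by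
  obtain ⟨m₁, h₁⟩ := near_two n
  obtain ⟨m₂, h₂⟩ := near_two m₁
  exact ⟨max m₁ m₂, fun t t' t'' t''' a b c => h₁ t t'' t'''
    (h₂ _ _ _ (a.mono (le_max_right _ _)) (b.mono (le_max_right _ _))) (c.mono (le_max_left _ _))⟩

/-- `u` sends a whole neighbourhood of `x` to `c`. -/
def Deep (x : Th) {α : Type} (u : Th → α) (c : α) : Prop := ∃ n, ∀ t, Near n t x → u t = c

theorem drag_basic {C C' : Obj} {u : Th → C.V} (hu : LM C u) {x : Th} {r : C'.V → C.V}
    (hr : Basic C' C r) (c' : C'.V) (hd : Deep x u (r c')) :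
    ∃ u' : Th → C'.V, LM C' u' ∧ (∀ t, r (u' t) = u t) ∧ Deep x u' c' := by
  obtain ⟨n₀, hn₀⟩ := hd
  obtain ⟨m₁, hm₁⟩ := near_two n₀
  obtain ⟨n₂, hu⟩ := hu
  let n := max m₁ n₂
  obtain ⟨un, hun, e⟩ := hu.mono (le_max_right m₁ n₂)
  let A := seq n
  let T : Set A.V := {a | ∃ g ∈ A.G, A.adj (g a) (x.x n)}
  have hT : ∀ g ∈ A.G, ∀ a, g a ∈ T → a ∈ T := by
    rintro g hg a ⟨k, hk, h⟩
    exact ⟨k ∘ g, A.s.comp_mem _ _ hk hg, h⟩
  have hdeep : ∀ a ∈ T, ∃ g' ∈ C'.G, ∀ a', A.adj a a' → un a' = r (g' c') := by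
    rintro a ⟨g, hg, h⟩
    obtain ⟨k, hk, hk1, -⟩ := A.exists_inv hg
    obtain ⟨kb, hkb, e1⟩ := hun.hom.down k hk
    obtain ⟨g', hg', e2⟩ := hr.hom.up kb hkb
    refine ⟨g', hg', fun a' ha' => ?_⟩
    obtain ⟨t, ht⟩ := proj_surj n (g a')
    obtain ⟨t', ht'⟩ := proj_surj n (g a)
    have h1 : Near n t t' := by
      unfold Near; rw [ht, ht']; exact A.s.map_adj g hg _ _ (A.s.symm _ _ ha')
    have h2 : Near n t' x := by unfold Near; rw [ht']; exact h
    have h3 := hn₀ t (hm₁ _ _ _ (h1.mono (le_max_left _ _)) (h2.mono (le_max_left _ _)))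
    rw [e, ht] at h3
    rw [e2, ← h3, ← e1, hk1]
  obtain ⟨w, hw, ew⟩ := (lm_proj n).ext (Mor.basic (pz_basic A))
  obtain ⟨z₀, hz₀⟩ := adj4_miss (w x).2
  have hO : ∀ g' ∈ C'.G, ∀ y ∈ {y | ∃ g' ∈ C'.G, y = g' c'},
      g' y ∈ {y | ∃ g' ∈ C'.G, y = g' c'} := by
    rintro g' hg' _ ⟨k, hk, rfl⟩
    exact ⟨g' ∘ k, C'.s.comp_mem _ _ hg' hk, rfl⟩
  obtain ⟨d, hd, ed⟩ := hw.ext (Mor.basic (drag_pz_basic hun.hom hr c' hT z₀ hdeep))
  have hmor : Mor (Drag A C' un r T hT z₀ {y | ∃ g' ∈ C'.G, y = g' c'}) C' (fun e => e.1.2) :=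
    Mor.comp (Mor.basic (drag_pb_basic un r hT z₀ hO)) (pb_snd hun hr.hom)
  have hxT : ∀ t, (PZ A).adj (w t) (w x) → (d t).1.1.1 ∈ T ∧ (d t).1.1.2 ≠ z₀ := by
    intro t ht
    have e1 : (d t).1.1 = w t := ed t
    rw [e1]
    refine ⟨⟨id, A.s.id_mem, ?_⟩, fun h => hz₀ (h ▸ ht.2)⟩
    have := ht.1
    rwa [show (w x).1 = x.x n from ew x] at this
  obtain ⟨k, hk, ek⟩ := (d x).2.2 (hxT x ((PZ A).s.refl _)).1 (hxT x ((PZ A).s.refl _)).2
  obtain ⟨k', hk', ek1, ek2⟩ := C'.exists_inv hk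
  have hr1 : ∀ t, r (d t).1.2 = u t := by
    intro t
    rw [← (d t).2.1, e, show (d t).1.1 = w t from ed t, show (w t).1 = t.x n from ew t]
  have hrk : ∀ y, r (k' y) = r y := by
    apply hr.hom.fix hk' (b := k c')
    rw [ek1, ← ek, hr1, hn₀ x (Near.refl _ _)]
  refine ⟨fun t => k' (d t).1.2, (hd.comp hmor).comp (Mor.of_mem C' hk'), fun t => ?_, ?_⟩
  · rw [hrk, hr1]
  · obtain ⟨n', hn', -⟩ := hd.near
    refine ⟨n', fun t ht => ?_⟩
    have h1 := hn' t x ht
    have h2 : (PZ A).adj (w t) (w x) := by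
      rw [← ed t, ← ed x]
      exact ⟨h1.1, h1.2.1⟩
    have h3 := h1.2.2.2 (hxT t h2).1 (hxT t h2).2 (hxT x ((PZ A).s.refl _)).1
      (hxT x ((PZ A).s.refl _)).2
    show k' (d t).1.2 = c'
    rw [h3, ek, ek1]

/-- The pointed extension property. -/
theorem drag {C C' : Obj} {r : C'.V → C.V} (hr : Mor C' C r) {x : Th} :
    ∀ {u : Th → C.V}, LM C u → ∀ c' : C'.V, Deep x u (r c') →
      ∃ u' : Th → C'.V, LM C' u' ∧ (∀ t, r (u' t) = u t) ∧ Deep x u' c' := by
  induction hr with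
  | basic h => exact fun hu c' hd => drag_basic hu h c' hd
  | @comp C'' B A p q _ _ ih1 ih2 =>
    intro u hu c' hd
    obtain ⟨u₁, hu₁, e₁, hd₁⟩ := ih2 hu (p c') hd
    obtain ⟨u₂, hu₂, e₂, hd₂⟩ := ih1 hu₁ c' hd₁
    exact ⟨u₂, hu₂, fun t => by simp [e₁, e₂], hd₂⟩

/-- Refining one side of the back-and-forth. -/
theorem forth {C : Obj} {u v : Th → C.V} (hu : LM C u) (hv : LM C v) {x y : Th} {c : C.V}
    (hx : Deep x u c) (hy : Deep y v c) (j : ℕ) :
    ∃ (C' : Obj) (u' v' : Th → C'.V) (c' : C'.V) (r : C'.V → C.V), LM C' u' ∧ LM C' v' ∧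
      Deep x u' c' ∧ Deep y v' c' ∧ (∀ a b, C'.adj a b → C.adj (r a) (r b)) ∧
      (∀ t, r (u' t) = u t) ∧ (∀ t, r (v' t) = v t) ∧
      ∀ t t', C'.adj (u' t) (u' t') → Near j t t' := by
  obtain ⟨n₀, hn₀⟩ := hx
  obtain ⟨n₁, hn₁⟩ := near_three j
  obtain ⟨n₂, hu⟩ := hu
  let n := max (max n₀ n₁) n₂
  obtain ⟨un, hun, e⟩ := hu.mono (le_max_right (max n₀ n₁) n₂)
  obtain ⟨w, hw, ew⟩ := (lm_proj n).ext (Mor.basic (std_basic (seq n)))
  obtain ⟨κ, hκ, h1, h2, h3⟩ := exists_kap (seq n) (w x)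
  have hc : ∀ a, (seq n).adj a (x.x n) → un a = c := by
    intro a ha
    obtain ⟨t, rfl⟩ := proj_surj n a
    rw [← e]
    exact hn₀ t (Near.mono ((le_max_left _ _).trans (le_max_left _ _)) ha)
  obtain ⟨v', hv', ev, hdv⟩ := drag hun hv (x.x n) (x := y)
    (by rw [hc _ ((seq n).s.refl _)]; exact hy)
  refine ⟨seq n, fun t => κ (w t), v', x.x n, un, hw.comp (Mor.basic hκ), hv', ?_, hdv,
    hun.hom.map_adj, fun t => ?_, ev, fun t t' htt => ?_⟩
  · obtain ⟨m, hm, -⟩ := hw.near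
    exact ⟨m, fun t ht => (h2 _ (hm _ _ ht)).trans (ew x)⟩
  · rw [e, ← ew t]
    show un (κ (w t)) = _
    rcases h3 (w t) with h | ⟨g, hg, a, b, ha, hb, e1, e2⟩
    · rw [h]
    · obtain ⟨k, -, ek⟩ := hun.hom.down g hg
      rw [ew x] at ha hb
      rw [e1, e2, ek, ek, hc a ha, hc b hb]
  · obtain ⟨s, hs⟩ := proj_surj n (κ (w t))
    obtain ⟨s', hs'⟩ := proj_surj n (κ (w t'))
    have hle : n₁ ≤ n := (le_max_right _ _).trans (le_max_left _ _)
    refine hn₁ t s s' t' (Near.mono hle ?_) (Near.mono hle ?_) (Near.mono hle ?_)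
    · unfold Near; rw [hs, ← ew t]; exact h1 _
    · unfold Near; rw [hs, hs']; exact htt
    · unfold Near; rw [hs', ← ew t']; exact (seq n).s.symm _ _ (h1 _)

/-- A state of the back-and-forth. -/
structure State (x y : Th) where
  C : Obj
  u : Th → C.V
  v : Th → C.V
  c : C.V
  hu : LM C u
  hv : LM C v
  hx : Deep x u c
  hy : Deep y v c

theorem state_step {x y : Th} (S : State x y) (j : ℕ) :
    ∃ S' : State x y, (∀ t t', S'.u t = S'.v t' → S.u t = S.v t') ∧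
      (∀ t t', S'.C.adj (S'.u t) (S'.u t') → Near j t t') ∧
      ∀ t t', S'.C.adj (S'.v t) (S'.v t') → Near j t t' := by
  obtain ⟨C₁, u₁, v₁, c₁, r₁, hu₁, hv₁, hx₁, hy₁, -, eu₁, ev₁, f₁⟩ := forth S.hu S.hv S.hx S.hy j
  obtain ⟨C₂, v₂, u₂, c₂, r₂, hv₂, hu₂, hy₂, hx₂, a₂, ev₂, eu₂, f₂⟩ := forth hv₁ hu₁ hy₁ hx₁ j
  refine ⟨⟨C₂, u₂, v₂, c₂, hu₂, hv₂, hx₂, hy₂⟩, fun t t' h => ?_, fun t t' h => ?_, f₂⟩
  · rw [← eu₁, ← ev₁, ← eu₂, ← ev₂]
    exact congrArg (fun a => r₁ (r₂ a)) h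
  · apply f₁
    rw [← eu₂, ← eu₂]
    exact a₂ _ _ h

def state0 (x y : Th) : State x y where
  C := Pt
  u := fun _ => ()
  v := fun _ => ()
  c := ()
  hu := ⟨0, fun _ => (), Mor.basic p4_pt_basic, fun _ => rfl⟩
  hv := ⟨0, fun _ => (), Mor.basic p4_pt_basic, fun _ => rfl⟩
  hx := ⟨0, fun _ _ => rfl⟩
  hy := ⟨0, fun _ _ => rfl⟩

noncomputable def states (x y : Th) : ℕ → State x y
  | 0 => state0 x y
  | j + 1 => (state_step (states x y j) j).choose

/-- Limits of threads along an ultrafilter. -/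
theorem exists_ulim {ι : Type} (U : Ultrafilter ι) (s : ι → Th) :
    ∃ t : Th, ∀ n, ∀ᶠ i in (U : Filter ι), (s i).x n = t.x n := by
  have h : ∀ n, ∃ a : (seq n).V, ∀ᶠ i in (U : Filter ι), (s i).x n = a := by
    intro n
    obtain ⟨a, ha⟩ := Ultrafilter.eq_pure_of_finite (U.map fun i => (s i).x n)
    refine ⟨a, ?_⟩
    have : ({a} : Set (seq n).V) ∈ U.map fun i => (s i).x n := by
      rw [ha]; exact Ultrafilter.mem_pure.2 rfl
    exact this
  choose a ha using h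
  refine ⟨⟨a, fun n => ?_⟩, ha⟩
  obtain ⟨i, h1, h2⟩ := ((ha n).and (ha (n + 1))).exists
  rw [← h1, ← h2, (s i).compat]

theorem exists_partner {C : ℕ → Obj} {u v : ∀ k, Th → (C k).V} (hv : ∀ k, LM (C k) (v k))
    (hc : ∀ k t t', u (k + 1) t = v (k + 1) t' → u k t = v k t') (t : Th) :
    ∃ t', ∀ k, u k t = v k t' := by
  have hc' : ∀ k m, k ≤ m → ∀ t', u m t = v m t' → u k t = v k t' := by
    intro k m hkm
    induction m, hkm using Nat.le_induction with
    | base => exact fun _ h => h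
    | succ m _ ih => exact fun t' h => ih t' (hc m t t' h)
  choose s hs using fun k => (hv k).surj (u k t)
  obtain ⟨t', ht'⟩ := exists_ulim (Filter.hyperfilter ℕ) s
  refine ⟨t', fun k => ?_⟩
  obtain ⟨n, -, hn⟩ := (hv k).near
  have h1 : ∀ᶠ i in (Filter.hyperfilter ℕ : Filter ℕ), k ≤ i :=
    Nat.hyperfilter_le_atTop (Filter.eventually_ge_atTop k)
  obtain ⟨i, hi1, hi2⟩ := (h1.and (ht' n)).exists
  rw [← hn _ _ hi2]
  exact hc' k i hi1 _ (hs i).symm

/-- Combinatorial homogeneity. -/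
theorem homog (x y : Th) : ∃ f g : Th → Th,
    (∀ j, ∃ n, ∀ t t', Near n t t' → Near j (f t) (f t')) ∧
    (∀ j, ∃ n, ∀ t t', Near n t t' → Near j (g t) (g t')) ∧
    (∀ j t, Near j (g (f t)) t) ∧ (∀ j t, Near j (f (g t)) t) ∧ ∀ j, Near j (f x) y := by
  have hs := fun j => (state_step (states x y j) j).choose_spec
  choose f hf using exists_partner (C := fun k => (states x y k).C)
    (u := fun k => (states x y k).u) (v := fun k => (states x y k).v)
    (fun k => (states x y k).hv) (fun k => (hs k).1)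
  choose g hg using exists_partner (C := fun k => (states x y k).C)
    (u := fun k => (states x y k).v) (v := fun k => (states x y k).u)
    (fun k => (states x y k).hu) (fun k t t' h => ((hs k).1 t' t h.symm).symm)
  have hu : ∀ j t t', (states x y (j + 1)).C.adj ((states x y (j + 1)).u t)
    ((states x y (j + 1)).u t') → Near j t t' := fun j => (hs j).2.1
  have hv : ∀ j t t', (states x y (j + 1)).C.adj ((states x y (j + 1)).v t)
    ((states x y (j + 1)).v t') → Near j t t' := fun j => (hs j).2.2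
  refine ⟨f, g, fun j => ?_, fun j => ?_, fun j t => ?_, fun j t => ?_, fun j => ?_⟩
  · obtain ⟨n, hn, -⟩ := (states x y (j + 1)).hu.near
    refine ⟨n, fun t t' h => hv j _ _ ?_⟩
    rw [← hf, ← hf]
    exact hn _ _ h
  · obtain ⟨n, hn, -⟩ := (states x y (j + 1)).hv.near
    refine ⟨n, fun t t' h => hu j _ _ ?_⟩
    rw [← hg, ← hg]
    exact hn _ _ h
  · apply hu
    rw [← hg, ← hf]
    exact (states x y (j + 1)).C.s.refl _
  · apply hv
    rw [← hf, ← hg]
    exact (states x y (j + 1)).C.s.refl _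
  · apply hv
    obtain ⟨n, hn⟩ := (states x y (j + 1)).hx
    obtain ⟨m, hm⟩ := (states x y (j + 1)).hy
    rw [← hf, hn x (Near.refl _ _), hm y (Near.refl _ _)]
    exact (states x y (j + 1)).C.s.refl _

end Pool.Agent.Work.MP_df5cf0_gt
end

-- merged part: Pool.Agent.Work.MP_df5cf0_gt.Walk
section
set_option autoImplicit false

namespace Pool.Agent.Work.MP_df5cf0_gt

open Function Relation

/-- A walk inside a fibre from `b` to `b'` of length `N` visiting `S`. -/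
def Blk (B : Obj) {α : Type} (q : B.V → α) (b b' : B.V) (N : ℕ) (S : Set B.V) : Prop :=
  ∃ β : ℕ → B.V, β 0 = b ∧ (∀ j, N ≤ j + 1 → β j = b') ∧ (∀ j, B.adj (β j) (β (j + 1))) ∧
    (∀ j, q (β j) = q b) ∧ ∀ c ∈ S, ∃ j < N, β j = c

theorem Blk.mono {B : Obj} {α : Type} {q : B.V → α} {b b' : B.V} {N N' : ℕ} {S S' : Set B.V}
    (h : Blk B q b b' N S) (hN : N ≤ N') (hS : S' ⊆ S) : Blk B q b b' N' S' := by
  obtain ⟨β, h1, h2, h3, h4, h5⟩ := h
  refine ⟨β, h1, fun j hj => h2 j (hN.trans hj), h3, h4, fun c hc => ?_⟩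
  obtain ⟨j, hj, e⟩ := h5 c (hS hc)
  exact ⟨j, hj.trans_le hN, e⟩

theorem Blk.trans {B : Obj} {α : Type} {q : B.V → α} {b b' b'' : B.V} {N N' : ℕ} {S S' : Set B.V}
    (h : Blk B q b b' (N + 1) S) (h' : Blk B q b' b'' (N' + 1) S') :
    Blk B q b b'' (N + 1 + (N' + 1)) (S ∪ S') := by
  obtain ⟨β, h1, h2, h3, h4, h5⟩ := h
  obtain ⟨β', h1', h2', h3', h4', h5'⟩ := h'
  have hbb : q b' = q b := by rw [← h2 N le_rfl, h4]
  refine ⟨fun j => if j < N + 1 then β j else β' (j - (N + 1)), by simp [h1], fun j hj => ?_,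
    fun j => ?_, fun j => ?_, ?_⟩
  · have : ¬ j < N + 1 := by omega
    simp only [this, if_false]
    exact h2' _ (by omega)
  · by_cases hj : j + 1 < N + 1
    · have : j < N + 1 := by omega
      simp only [hj, this, if_true]
      exact h3 j
    · by_cases hj' : j < N + 1
      · have e : j + 1 - (N + 1) = 0 := by omega
        simp only [hj, hj', if_true, if_false, e]
        rw [h1', h2 j (by omega)]
        exact B.s.refl _
      · have e : j + 1 - (N + 1) = j - (N + 1) + 1 := by omega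
        simp only [hj, hj', if_false, e]
        exact h3' _
  · by_cases hj : j < N + 1
    · simp only [hj, if_true]; exact h4 j
    · simp only [hj, if_false]; exact (h4' _).trans hbb
  · rintro c (hc | hc)
    · obtain ⟨j, hj, e⟩ := h5 c hc
      exact ⟨j, by omega, by simp only [hj, if_true]; exact e⟩
    · obtain ⟨j, hj, e⟩ := h5' c hc
      refine ⟨N + 1 + j, by omega, ?_⟩
      have : ¬ N + 1 + j < N + 1 := by omega
      simp only [this, if_false]
      rw [show N + 1 + j - (N + 1) = j by omega]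
      exact e

theorem FC.blk {B : Obj} {α : Type} {q : B.V → α} {b b' : B.V} (h : FC B q b b') :
    ∃ N, Blk B q b b' (N + 1) {b'} := by
  induction h with
  | refl => exact ⟨0, fun _ => b, rfl, fun _ _ => rfl, fun _ => B.s.refl _, fun _ => rfl,
      fun c hc => ⟨0, by omega, hc.symm⟩⟩
  | @tail u v _ h2 ih =>
    obtain ⟨N, hN⟩ := ih
    have : Blk B q u v (1 + 1) {v} := by
      refine ⟨fun j => if j = 0 then u else v, by simp, fun j hj => ?_, fun j => ?_, fun j => ?_,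
        fun c hc => ⟨1, by omega, by simpa using hc.symm⟩⟩
      · have : j ≠ 0 := by omega
        simp [this]
      · by_cases hj : j = 0
        · simpa [hj] using h2.1
        · simpa [hj] using B.s.refl _
      · by_cases hj : j = 0
        · simp [hj]
        · simpa [hj] using h2.2.symm
    exact ⟨N + 1 + 1, (hN.trans this).mono (by omega) Set.subset_union_right⟩

theorem FC.blk_set {B : Obj} {α : Type} {q : B.V → α} {b b' : B.V} (h : FC B q b b') :
    ∃ N, Blk B q b b' (N + 1) {c | FC B q b c} := by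
  have key : ∀ S : Finset B.V, (∀ c ∈ S, FC B q b c) → ∃ N, Blk B q b b' (N + 1) S := by
    classical
    intro S
    induction S using Finset.induction_on with
    | empty =>
      intro _
      obtain ⟨N, hN⟩ := h.blk
      exact ⟨N, hN.mono le_rfl (by simp)⟩
    | insert c S _ ih =>
      intro hS
      obtain ⟨N, hN⟩ := ih fun c' hc' => hS c' (Finset.mem_insert_of_mem hc')
      have hc := hS c (Finset.mem_insert_self _ _)
      obtain ⟨N₁, h₁⟩ := hc.blk
      obtain ⟨N₂, h₂⟩ := hc.symm.blk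
      refine ⟨N₁ + 1 + N₂ + 1 + N, (Blk.trans (N := N₁ + 1 + N₂) (h₁.trans h₂) hN).mono
        (by omega) ?_⟩
      intro c' hc'
      simp only [Finset.coe_insert, Set.mem_insert_iff] at hc'
      rcases hc' with rfl | hc'
      · exact Or.inl (Or.inl rfl)
      · exact Or.inr hc'
  obtain ⟨N, hN⟩ := key (Set.toFinite {c | FC B q b c}).toFinset (by simp)
  exact ⟨N, hN.mono le_rfl (by simp)⟩

theorem exists_unif_blk (B : Obj) {α : Type} (q : B.V → α) :
    ∃ N, ∀ b b', FC B q b b' → Blk B q b b' (N + 1) {c | FC B q b c} := by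
  have h : ∀ p : B.V × B.V, ∃ N, FC B q p.1 p.2 → Blk B q p.1 p.2 (N + 1) {c | FC B q p.1 c} := by
    intro p
    by_cases hp : FC B q p.1 p.2
    · obtain ⟨N, hN⟩ := hp.blk_set
      exact ⟨N, fun _ => hN⟩
    · exact ⟨0, fun h => absurd h hp⟩
  choose N hN using h
  obtain ⟨M, hM⟩ := (Set.finite_range N).bddAbove
  exact ⟨M, fun b b' h => (hN (b, b') h).mono
    (Nat.succ_le_succ (hM (Set.mem_range_self _))) subset_rfl⟩

/-- A walk which meets every orbit. -/
structure IsWalk (A : Obj) (γ : ℕ → A.V) (l : ℕ) (x y : A.V) : Prop where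
  pos : 0 < l
  start : γ 0 = x
  adj : ∀ j, A.adj (γ j) (γ (j + 1))
  stop : ∀ j, l ≤ j + 1 → γ j = y
  full : ∀ a, ∃ j < l, ∃ g ∈ A.G, γ j = g a

theorem Basic.local_lift {B A : Obj} {q : B.V → A.V} (hq : Basic B A q) (b : B.V) (a' : A.V)
    (h : A.adj (q b) a') : ∃ b₁ b₂, FC B q b b₁ ∧ B.adj b₁ b₂ ∧ q b₂ = a' := by
  obtain ⟨c, c', hc, e1, e2⟩ := hq.hom.edge _ _ h
  obtain ⟨g, hg, hfc⟩ := hq.orb b c e1.symm
  refine ⟨g c, g c', hfc, B.s.map_adj g hg _ _ hc, ?_⟩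
  rw [hq.hom.fix hg (hfc.eq.symm.trans e1.symm), e2]

theorem Basic.fill_orbit {B A : Obj} {q : B.V → A.V} (hq : Basic B A q) (a : A.V) :
    ∃ a₀, ∀ g ∈ A.G, ∀ b b', q b = g a₀ → q b' = g a₀ → FC B q b b' := by
  obtain ⟨a₀, h₀⟩ := hq.fill a
  refine ⟨a₀, fun g hg b b' hb hb' => ?_⟩
  obtain ⟨g', hg', e⟩ := hq.hom.up g hg
  obtain ⟨k, hk, -, e2⟩ := B.exists_inv hg'
  have h1 : ∀ c, q c = g a₀ → q (k c) = a₀ := by
    intro c hc
    apply A.s.inj g hg
    rw [← e, e2, hc]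
  have := FC.transfer (B' := B) (q' := q) (h₀ _ _ (h1 b hb) (h1 b' hb')) (fun u _ => g' u)
    (fun u v hu hv huv => ⟨B.s.map_adj g' hg' _ _ huv, by rw [e, e, ← hu, ← hv]⟩)
  simpa [e2] using this

theorem entry_exit {B A : Obj} {q : B.V → A.V} (hq : Basic B A q) {γ : ℕ → A.V} {l : ℕ}
    {x' y' : B.V} (hγ : IsWalk A γ l (q x') (q y')) :
    ∃ e o : ℕ → B.V, e 0 = x' ∧ (∀ i, q (e i) = γ i) ∧ (∀ i, FC B q (e i) (o i)) ∧
      (∀ i, B.adj (o i) (e (i + 1))) ∧ (∀ i, l ≤ i + 1 → o i = y') ∧ ∀ i, l ≤ i → e i = y' := by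
  classical
  let R : ℕ → B.V → Prop := fun i b => ∃ e o : ℕ → B.V, e 0 = x' ∧
    (∀ j ≤ i, q (e j) = γ j ∧ FC B q (e j) (o j)) ∧ (∀ j < i, B.adj (o j) (e (j + 1))) ∧ o i = b
  have R0 : R 0 x' := ⟨fun _ => x', fun _ => x', rfl, fun j hj => by
    obtain rfl : j = 0 := by omega
    exact ⟨hγ.start.symm, FC.refl _⟩, by simp, rfl⟩
  have Rq : ∀ i b, R i b → q b = γ i := by
    rintro i b ⟨e, o, -, h2, -, rfl⟩
    rw [← (h2 i le_rfl).2.eq, (h2 i le_rfl).1]
  have Rfc : ∀ i b b', R i b → FC B q b b' → R i b' := by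
    rintro i b b' ⟨e, o, h1, h2, h3, rfl⟩ h
    refine ⟨e, Function.update o i b', h1, fun j hj => ⟨(h2 j hj).1, ?_⟩, fun j hj => ?_, by simp⟩
    · rcases hj.lt_or_eq with hj' | rfl
      · rw [Function.update_of_ne hj'.ne]
        exact (h2 j hj).2
      · rw [Function.update_self]
        exact (h2 j hj).2.trans h
    · rw [Function.update_of_ne hj.ne]
      exact h3 j hj
  have Rstep : ∀ i b b', R i b → B.adj b b' → q b' = γ (i + 1) → R (i + 1) b' := by
    rintro i b b' ⟨e, o, h1, h2, h3, rfl⟩ h hb'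
    refine ⟨Function.update e (i + 1) b', Function.update o (i + 1) b', ?_, fun j hj => ?_,
      fun j hj => ?_, by simp⟩
    · rw [Function.update_of_ne (by omega)]; exact h1
    · rcases hj.lt_or_eq with hj' | rfl
      · rw [Function.update_of_ne hj'.ne, Function.update_of_ne hj'.ne]
        exact h2 j (by omega)
      · rw [Function.update_self, Function.update_self]
        exact ⟨hb', FC.refl _⟩
    · rw [Function.update_of_ne hj.ne]
      rcases (Nat.lt_succ_iff.1 hj).lt_or_eq with hj' | rfl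
      · rw [Function.update_of_ne (by omega)]
        exact h3 j hj'
      · rw [Function.update_self]
        exact h
  have Rex : ∀ i, ∃ b, R i b := by
    intro i
    induction i with
    | zero => exact ⟨x', R0⟩
    | succ i ih =>
      obtain ⟨b, hb⟩ := ih
      obtain ⟨b₁, b₂, h1, h2, h3⟩ := hq.local_lift b (γ (i + 1)) (by rw [Rq i b hb]; exact hγ.adj i)
      exact ⟨b₂, Rstep i b₁ b₂ (Rfc i b b₁ hb h1) h2 h3⟩
  obtain ⟨a₀, ha₀⟩ := hq.fill_orbit (q x')
  obtain ⟨i₀, hi₀, g, hg, e₀⟩ := hγ.full a₀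
  have Rall : ∀ i, i₀ ≤ i → ∀ b, q b = γ i → R i b := by
    intro i hi
    induction i, hi using Nat.le_induction with
    | base =>
      intro b hb
      obtain ⟨b', hb'⟩ := Rex i₀
      exact Rfc _ _ _ hb' (ha₀ g hg _ _ ((Rq _ _ hb').trans e₀) (hb.trans e₀))
    | succ i _ ih =>
      intro b hb
      obtain ⟨b₁, b₂, h1, h2, h3⟩ := hq.local_lift b (γ i)
        (by rw [hb]; exact A.s.symm _ _ (hγ.adj i))
      exact Rfc _ _ _ (Rstep i b₂ b₁ (ih b₂ h3) (B.s.symm _ _ h2) (h1.eq.symm.trans hb)) h1.symm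
  obtain ⟨m, rfl⟩ : ∃ m, l = m + 1 := ⟨l - 1, by have := hγ.pos; omega⟩
  obtain ⟨e, o, h1, h2, h3, h4⟩ := Rall m (by omega) y' (hγ.stop m le_rfl).symm
  refine ⟨fun i => if i ≤ m then e i else y', fun i => if i ≤ m then o i else y', by simp [h1],
    fun i => ?_, fun i => ?_, fun i => ?_, fun i hi => ?_, fun i hi => ?_⟩
  · by_cases hi : i ≤ m
    · simp only [hi, if_true]; exact (h2 i hi).1
    · simp only [hi, if_false]; exact (hγ.stop i (by omega)).symm
  · by_cases hi : i ≤ m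
    · simp only [hi, if_true]; exact (h2 i hi).2
    · simp only [hi, if_false]; exact FC.refl _
  · by_cases hi : i + 1 ≤ m
    · have : i ≤ m := by omega
      simp only [hi, this, if_true]; exact h3 i (by omega)
    · by_cases hi' : i ≤ m
      · obtain rfl : i = m := by omega
        simp only [hi, if_true, if_false, le_refl, h4]; exact B.s.refl _
      · simp only [hi, hi', if_false]; exact B.s.refl _
  · by_cases hi' : i ≤ m
    · obtain rfl : i = m := by omega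
      simp [h4]
    · simp [hi']
  · have : ¬ i ≤ m := by omega
    simp [this]

theorem Basic.lift_walk {B A : Obj} {q : B.V → A.V} (hq : Basic B A q) {γ : ℕ → A.V} {l : ℕ}
    {x' y' : B.V} (hγ : IsWalk A γ l (q x') (q y')) :
    ∃ (N : ℕ) (γ' : ℕ → B.V), 0 < N ∧ IsWalk B γ' (l * N) x' y' ∧ ∀ j, q (γ' j) = γ (j / N) := by
  obtain ⟨e, o, h1, h2, h3, h4, h5, h6⟩ := entry_exit hq hγ
  obtain ⟨M, hM⟩ := exists_unif_blk B q
  have hβ : ∀ i, ∃ β : ℕ → B.V, β 0 = e i ∧ (∀ j, M + 1 ≤ j + 1 → β j = o i) ∧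
      (∀ j, B.adj (β j) (β (j + 1))) ∧ (∀ j, q (β j) = γ i) ∧
      (i < l → ∀ c, FC B q (e i) c → ∃ j < M + 1, β j = c) ∧ (l ≤ i → ∀ j, β j = y') := by
    intro i
    by_cases hi : i < l
    · obtain ⟨β, b1, b2, b3, b4, b5⟩ := hM _ _ (h3 i)
      exact ⟨β, b1, b2, b3, fun j => (b4 j).trans (h2 i), fun _ => b5, fun h => by omega⟩
    · exact ⟨fun _ => y', (h6 i (by omega)).symm, fun _ _ => (h5 i (by omega)).symm,
        fun _ => B.s.refl _, fun _ => (hγ.stop i (by omega)).symm, fun h => absurd h hi,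
        fun _ _ => rfl⟩
  choose β b1 b2 b3 b4 b5 b6 using hβ
  refine ⟨M + 1, fun j => β (j / (M + 1)) (j % (M + 1)), by omega,
    ⟨Nat.mul_pos hγ.pos (by omega), by simp [b1, h1], fun j => ?_, fun j hj => ?_, fun c => ?_⟩,
    fun j => b4 _ _⟩
  · have hd := Nat.div_add_mod j (M + 1)
    have hlt := Nat.mod_lt j (show M + 1 > 0 by omega)
    by_cases hj : j % (M + 1) + 1 < M + 1
    · have e1 : (j + 1) / (M + 1) = j / (M + 1) ∧ (j + 1) % (M + 1) = j % (M + 1) + 1 :=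
        (Nat.div_mod_unique (by omega)).2 ⟨by omega, hj⟩
      rw [e1.1, e1.2]
      exact b3 _ _
    · have e1 : (j + 1) / (M + 1) = j / (M + 1) + 1 ∧ (j + 1) % (M + 1) = 0 :=
        (Nat.div_mod_unique (by omega)).2 ⟨by rw [Nat.mul_add]; omega, by omega⟩
      rw [e1.1, e1.2, b1, b2 _ _ (by omega)]
      exact h4 _
  · have hd := Nat.div_add_mod j (M + 1)
    have hlt := Nat.mod_lt j (show M + 1 > 0 by omega)
    by_cases hi : l ≤ j / (M + 1)
    · exact b6 _ hi _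
    · have h7 : j / (M + 1) + 1 ≤ l := by omega
      have h8 : (j / (M + 1) + 1) * (M + 1) ≤ l * (M + 1) := Nat.mul_le_mul_right _ h7
      have h9 : (j / (M + 1) + 1) * (M + 1) = (M + 1) * (j / (M + 1)) + (M + 1) := by ring
      have h10 : l * (M + 1) ≤ (j / (M + 1) + 1) * (M + 1) := by omega
      have h11 : l ≤ j / (M + 1) + 1 := Nat.le_of_mul_le_mul_right h10 (by omega)
      show β (j / (M + 1)) (j % (M + 1)) = y'
      rw [b2 _ _ (by omega)]
      exact h5 _ h11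
  · obtain ⟨i, hi, g, hg, eg⟩ := hγ.full (q c)
    obtain ⟨g', hg', eg'⟩ := hq.hom.up g hg
    obtain ⟨k, hk, hfc⟩ := hq.orb (e i) (g' c) (by rw [h2, eg', eg])
    obtain ⟨j, hj, ej⟩ := b5 i hi _ hfc
    refine ⟨j + (M + 1) * i, ?_, k ∘ g', B.s.comp_mem _ _ hk hg', ?_⟩
    · have : (i + 1) * (M + 1) ≤ l * (M + 1) := Nat.mul_le_mul_right _ hi
      have h9 : (i + 1) * (M + 1) = (M + 1) * i + (M + 1) := by ring
      omega
    · have e1 : (j + (M + 1) * i) / (M + 1) = i ∧ (j + (M + 1) * i) % (M + 1) = j :=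
        (Nat.div_mod_unique (by omega)).2 ⟨rfl, hj⟩
      show β ((j + (M + 1) * i) / (M + 1)) ((j + (M + 1) * i) % (M + 1)) = _
      rw [e1.1, e1.2, ej]
      rfl

theorem Mor.lift_walk {B A : Obj} {q : B.V → A.V} (hq : Mor B A q) :
    ∀ {γ : ℕ → A.V} {l : ℕ} {x' y' : B.V}, IsWalk A γ l (q x') (q y') →
    ∃ (N : ℕ) (γ' : ℕ → B.V), 0 < N ∧ IsWalk B γ' (l * N) x' y' ∧ ∀ j, q (γ' j) = γ (j / N) := by
  induction hq with
  | basic h => exact fun hγ => h.lift_walk hγ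
  | @comp C B A p q _ _ ih1 ih2 =>
    intro γ l x' y' hγ
    obtain ⟨N₁, γ₁, p₁, w₁, e₁⟩ := ih2 (x' := p x') (y' := p y') hγ
    obtain ⟨N₂, γ₂, p₂, w₂, e₂⟩ := ih1 w₁
    refine ⟨N₁ * N₂, γ₂, Nat.mul_pos p₁ p₂, by rwa [← mul_assoc], fun j => ?_⟩
    simp only [Function.comp, e₂, e₁]
    rw [Nat.div_div_eq_div_mul, mul_comm]

theorem walk_zero (x y : Fin 4) : ∃ l γ, IsWalk P4 γ l x y := by
  have hc : ∀ i j : Fin 4, FC P4 (fun _ => ()) i j := fun i j =>
    FC.of_adj4 (B := P4) id (fun _ _ h => ⟨h, rfl⟩) i j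
  obtain ⟨N, β, b1, b2, b3, -, b5⟩ := (hc x y).blk_set
  refine ⟨N + 1, β, by omega, b1, b3, b2, fun a => ?_⟩
  obtain ⟨j, hj, e⟩ := b5 a (hc x a)
  exact ⟨j, hj, id, rfl, e⟩

/-- Data of a full walk at level `n`. -/
structure WalkData (x y : Th) (n : ℕ) where
  l : ℕ
  γ : ℕ → (seq n).V
  walk : IsWalk (seq n) γ l (x.x n) (y.x n)

theorem WalkData.step {x y : Th} {n : ℕ} (D : WalkData x y n) :
    ∃ (D' : WalkData x y (n + 1)) (N : ℕ), 0 < N ∧ D'.l = D.l * N ∧
      ∀ j, bond n (D'.γ j) = D.γ (j / N) := by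
  have h := D.walk
  rw [← x.compat, ← y.compat] at h
  obtain ⟨N, γ', hN, hw, e⟩ := (bond_mor n).lift_walk h
  exact ⟨⟨_, γ', hw⟩, N, hN, rfl, e⟩

noncomputable def walks (x y : Th) : ∀ n, WalkData x y n
  | 0 => ⟨(walk_zero (x.x 0) (y.x 0)).choose, (walk_zero (x.x 0) (y.x 0)).choose_spec.choose,
      (walk_zero (x.x 0) (y.x 0)).choose_spec.choose_spec⟩
  | n + 1 => (walks x y n).step.choose

/-- Combinatorial path connectedness. -/
theorem exists_path (x y : Th) : ∃ τ : ℝ → Th, (∀ n, (τ 0).x n = x.x n) ∧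
    (∀ n, (τ 1).x n = y.x n) ∧ ∀ n, ∃ δ > 0, ∀ s t, |s - t| < δ → Near n (τ s) (τ t) := by
  refine ⟨fun t => ⟨fun n => (walks x y n).γ ⌊t * (walks x y n).l⌋₊, fun n => ?_⟩, fun n => ?_,
    fun n => ?_, fun n => ?_⟩
  · obtain ⟨N, hN, e1, e2⟩ := (walks x y n).step.choose_spec
    have e1' : (walks x y (n + 1)).l = (walks x y n).l * N := e1
    have e2' : ∀ j, bond n ((walks x y (n + 1)).γ j) = (walks x y n).γ (j / N) := e2
    rw [e2', e1', ← Nat.floor_div_natCast]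
    congr 2
    have : (N : ℝ) ≠ 0 := by positivity
    push_cast
    field_simp
  · simpa using (walks x y n).walk.start
  · simpa using (walks x y n).walk.stop _ (by omega)
  · have hl : (0 : ℝ) < (walks x y n).l := by exact_mod_cast (walks x y n).walk.pos
    have key : ∀ s t : ℝ, s ≤ t → t - s < 1 / (walks x y n).l → (seq n).adj
        ((walks x y n).γ ⌊s * (walks x y n).l⌋₊) ((walks x y n).γ ⌊t * (walks x y n).l⌋₊) := by
      intro s t hst h
      have h1 : ⌊s * (walks x y n).l⌋₊ ≤ ⌊t * (walks x y n).l⌋₊ :=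
        Nat.floor_mono (mul_le_mul_of_nonneg_right hst hl.le)
      have h2 : ⌊t * (walks x y n).l⌋₊ < ⌊s * (walks x y n).l⌋₊ + 2 := by
        rw [Nat.floor_lt' (by omega)]
        have h3 := Nat.lt_floor_add_one (s * (walks x y n).l)
        rw [lt_div_iff₀ hl] at h
        push_cast
        nlinarith
      rcases h1.lt_or_eq with h1 | h1
      · rw [show ⌊t * (walks x y n).l⌋₊ = ⌊s * (walks x y n).l⌋₊ + 1 by omega]
        exact (walks x y n).walk.adj _
      · rw [h1]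
        exact (seq n).s.refl _
    refine ⟨1 / (walks x y n).l, by positivity, fun s t hst => ?_⟩
    rw [abs_lt] at hst
    rcases le_total s t with h | h
    · exact key s t h (by linarith [hst.1])
    · exact (seq n).s.symm _ _ (key t s h (by linarith [hst.2]))

/-- The sheet function of an unwrapping. -/
theorem exists_sheet (n : ℕ) (c : (seq n).V → (seq n).V → ZMod 2) (hc0 : ∀ a, c a a = 0)
    (hcs : ∀ a b, c a b = c b a) (a₀ : (seq n).V) :
    ∃ (s : Th → ZMod 2) (m : ℕ),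
      (∀ t t', Near m t t' → (∀ g ∈ (seq n).G, t.x n ≠ g a₀) →
        s t' = s t + c (t.x n) (t'.x n)) ∧
      ∀ t : Th, ∃ t' : Th, t'.x n = t.x n ∧ s t' ≠ s t := by
  obtain ⟨w, hw, ew⟩ := (lm_proj n).ext (Mor.basic (unw_basic (seq n) c hc0 hcs a₀))
  obtain ⟨m, hm, -⟩ := hw.near
  refine ⟨fun t => (w t).2 id, m, fun t t' h hg => ?_, fun t => ?_⟩
  · obtain ⟨-, h2 | ⟨-, g, hg', h3⟩⟩ := hm t t' h
    · have := h2 id
      rwa [ew t, ew t'] at this
    · exact absurd ((ew t).symm.trans h3) (hg g hg')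
  · obtain ⟨t', ht'⟩ := hw.surj (t.x n, fun h => (w t).2 h + 1)
    refine ⟨t', ?_, ?_⟩
    · rw [← ew t', ht']
    · simp [ht']

theorem exists_missed (x : Th) (n : ℕ) :
    ∃ a₀ : (seq n).V, ∀ t, Near 0 t x → ∀ g ∈ (seq n).G, t.x n ≠ g a₀ := by
  obtain ⟨p, hp, e⟩ : LMat n (seq 0) (fun t => t.x 0) :=
    LMat.mono (Nat.zero_le n) ⟨id, Mor.id _, fun _ => rfl⟩
  obtain ⟨z, hz⟩ := adj4_miss (x.x 0)
  obtain ⟨a₀, ha₀⟩ := hp.hom.surj z
  refine ⟨a₀, fun t ht g hg h => hz ?_⟩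
  obtain ⟨k, hk, ek⟩ := hp.hom.down g hg
  have hk' : k = id := hk
  have : t.x 0 = z := by
    have := e t
    simp only at this
    rw [this, h, ek, hk', ha₀]
    rfl
  rw [← this]
  exact ht

theorem exists_far : ∃ x y : Th, ¬ Near 0 x y := by
  obtain ⟨x, hx⟩ := proj_surj 0 (0 : Fin 4)
  obtain ⟨y, hy⟩ := proj_surj 0 (3 : Fin 4)
  refine ⟨x, y, fun h => ?_⟩
  unfold Near at h
  rw [hx, hy] at h
  exact absurd (show adj4 0 3 from h) (by decide)

end Pool.Agent.Work.MP_df5cf0_gt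
end

-- merged part: Pool.Agent.Work.MP_df5cf0_gt.Top
section
set_option autoImplicit false

namespace Pool.Agent.Work.MP_df5cf0_gt

open Function Filter Topology Set

def ent (n : ℕ) : Set (Th × Th) := {p | Near n p.1 p.2}

theorem ent_basis : (⨅ n, 𝓟 (ent n)).HasBasis (fun _ => True) ent :=
  (Filter.HasAntitoneBasis.iInf_principal (s := ent)
    (fun _ _ h _ hp => Near.mono h hp)).toHasBasis

instance : UniformSpace Th := UniformSpace.ofCore <| UniformSpace.Core.mk' (⨅ n, 𝓟 (ent n))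
  (fun r hr x => by
    obtain ⟨n, -, hn⟩ := ent_basis.mem_iff.1 hr
    exact hn (Near.refl n x))
  (fun r hr => by
    obtain ⟨n, -, hn⟩ := ent_basis.mem_iff.1 hr
    exact ent_basis.mem_iff.2 ⟨n, trivial, fun p hp => hn (Near.symm hp)⟩)
  (fun r hr => by
    obtain ⟨n, -, hn⟩ := ent_basis.mem_iff.1 hr
    obtain ⟨m, hm⟩ := near_two n
    refine ⟨ent m, ent_basis.mem_iff.2 ⟨m, trivial, subset_rfl⟩, ?_⟩
    rintro ⟨a, b⟩ ⟨c, h1, h2⟩
    exact hn (hm a c b h1 h2))

theorem unif_basis : (uniformity Th).HasBasis (fun _ => True) ent := ent_basis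

instance : (uniformity Th).IsCountablyGenerated := unif_basis.isCountablyGenerated

noncomputable instance : PseudoMetricSpace Th := UniformSpace.pseudoMetricSpace Th

theorem near_of_pos {ε : ℝ} (hε : 0 < ε) : ∃ n, ∀ t t', Near n t t' → dist t t' < ε := by
  obtain ⟨n, -, hn⟩ := unif_basis.mem_iff.1 (Metric.dist_mem_uniformity (α := Th) hε)
  exact ⟨n, fun t t' h => hn (show (t, t') ∈ ent n from h)⟩

theorem pos_of_near (n : ℕ) : ∃ δ > 0, ∀ t t' : Th, dist t t' < δ → Near n t t' := by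
  obtain ⟨δ, hδ, h⟩ := Metric.mem_uniformity_dist.1 (unif_basis.mem_of_mem (i := n) trivial)
  exact ⟨δ, hδ, fun t t' ht => h ht⟩

theorem dist_eq_zero_of_near {t t' : Th} (h : ∀ n, Near n t t') : dist t t' = 0 := by
  refine le_antisymm (le_of_forall_pos_le_add fun ε hε => ?_) dist_nonneg
  obtain ⟨n, hn⟩ := near_of_pos hε
  simpa using (hn t t' (h n)).le

theorem near_of_dist_eq_zero {t t' : Th} (h : dist t t' = 0) (n : ℕ) : Near n t t' := by
  obtain ⟨δ, hδ, hn⟩ := pos_of_near n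
  exact hn t t' (by rwa [h])

instance : CompactSpace Th := ⟨by
  rw [isCompact_iff_ultrafilter_le_nhds]
  intro U _
  obtain ⟨t, ht⟩ := exists_ulim U id
  refine ⟨t, mem_univ _, fun s hs => ?_⟩
  obtain ⟨ε, hε, h⟩ := Metric.mem_nhds_iff.1 hs
  obtain ⟨n, hn⟩ := near_of_pos hε
  filter_upwards [ht n] with i hi
  exact h (hn _ _ (Near.of_eq hi))⟩

/-- The continuum. -/
def XX : Type := SeparationQuotient Th

noncomputable instance : MetricSpace XX := SeparationQuotient.instMetricSpace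

def mk (t : Th) : XX := SeparationQuotient.mk t

theorem dist_mk (t t' : Th) : dist (mk t) (mk t') = dist t t' := SeparationQuotient.dist_mk t t'

theorem mk_surj : Surjective mk := SeparationQuotient.surjective_mk

theorem continuous_mk : Continuous mk := SeparationQuotient.continuous_mk

theorem mk_eq {t t' : Th} (h : ∀ n, Near n t t') : mk t = mk t' := by
  rw [← dist_eq_zero, dist_mk]
  exact dist_eq_zero_of_near h

noncomputable def out (p : XX) : Th := (mk_surj p).choose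

theorem mk_out (p : XX) : mk (out p) = p := (mk_surj p).choose_spec

theorem dist_out (p q : XX) : dist (out p) (out q) = dist p q := by
  rw [← dist_mk, mk_out, mk_out]

theorem near_out (t : Th) (n : ℕ) : Near n t (out (mk t)) := by
  apply near_of_dist_eq_zero
  rw [← dist_mk, mk_out, dist_self]

instance : CompactSpace XX := ⟨by
  rw [← mk_surj.range_eq]
  exact isCompact_range continuous_mk⟩

instance : Nontrivial XX := by
  obtain ⟨x, y, h⟩ := exists_far
  refine ⟨mk x, mk y, fun e => h (near_of_dist_eq_zero ?_ 0)⟩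
  rw [← dist_mk, e, dist_self]

instance : PathConnectedSpace XX where
  nonempty := inferInstance
  joined p q := by
    obtain ⟨x, rfl⟩ := mk_surj p
    obtain ⟨y, rfl⟩ := mk_surj q
    obtain ⟨τ, h0, h1, hτ⟩ := exists_path x y
    have hc : Continuous τ := by
      rw [Metric.continuous_iff]
      intro s ε hε
      obtain ⟨n, hn⟩ := near_of_pos hε
      obtain ⟨δ, hδ, h⟩ := hτ n
      exact ⟨δ, hδ, fun t ht => hn _ _ (h _ _ ht)⟩
    exact ⟨⟨⟨fun t => mk (τ t), continuous_mk.comp (hc.comp continuous_subtype_val)⟩,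
      mk_eq fun n => Near.of_eq (h0 n), mk_eq fun n => Near.of_eq (h1 n)⟩⟩

theorem continuous_of_near {f : Th → Th}
    (hf : ∀ j, ∃ n, ∀ t t', Near n t t' → Near j (f t) (f t')) :
    Continuous fun p : XX => mk (f (out p)) := by
  rw [Metric.continuous_iff]
  intro p ε hε
  obtain ⟨j, hj⟩ := near_of_pos hε
  obtain ⟨n, hn⟩ := hf j
  obtain ⟨δ, hδ, h⟩ := pos_of_near n
  refine ⟨δ, hδ, fun q hq => ?_⟩
  rw [dist_mk]
  exact hj _ _ (hn _ _ (h _ _ (by rwa [dist_out])))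

theorem mk_map_out {f : Th → Th} (hf : ∀ j, ∃ n, ∀ t t', Near n t t' → Near j (f t) (f t'))
    (t : Th) : mk (f (out (mk t))) = mk (f t) := by
  refine mk_eq fun j => ?_
  obtain ⟨n, hn⟩ := hf j
  exact hn _ _ (near_out t n).symm

theorem homogeneous (p q : XX) : ∃ h : XX ≃ₜ XX, h p = q := by
  obtain ⟨x, rfl⟩ := mk_surj p
  obtain ⟨y, rfl⟩ := mk_surj q
  obtain ⟨f, g, hf, hg, hgf, hfg, hxy⟩ := homog x y
  refine ⟨⟨⟨fun p => mk (f (out p)), fun p => mk (g (out p)), fun p => ?_, fun p => ?_⟩,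
    continuous_of_near hf, continuous_of_near hg⟩, ?_⟩
  · show mk (g (out (mk (f (out p))))) = p
    rw [mk_map_out hg, mk_eq fun j => hgf j _, mk_out]
  · show mk (f (out (mk (g (out p))))) = p
    rw [mk_map_out hf, mk_eq fun j => hfg j _, mk_out]
  · show mk (f (out (mk x))) = mk y
    rw [mk_map_out hf, mk_eq hxy]

theorem const_on {Y β : Type} [TopologicalSpace Y] {W : Set Y} (hW : IsPreconnected W)
    {ρ : Y → XX} (hρ : Continuous ρ) (φ : Y → β) (m : ℕ)
    (hφ : ∀ y ∈ W, ∀ y' ∈ W, Near m (out (ρ y)) (out (ρ y')) → φ y = φ y') {y y' : Y}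
    (hy : y ∈ W) (hy' : y' ∈ W) : φ y = φ y' := by
  refine hW.induction₂ (fun a b => φ a = φ b) (fun a ha => ?_) (fun _ _ _ _ _ _ h1 h2 => h1.trans h2)
    (fun _ _ _ _ h => h.symm) hy hy'
  obtain ⟨δ, hδ, h⟩ := pos_of_near m
  have h1 : ∀ᶠ b in 𝓝 a, dist (ρ b) (ρ a) < δ :=
    Metric.tendsto_nhds.1 hρ.continuousAt δ hδ
  filter_upwards [nhdsWithin_le_nhds h1, self_mem_nhdsWithin] with b hb hbW
  exact hφ a ha b hbW (h _ _ (by rwa [dist_out, dist_comm]))

theorem not_locallyConnected : ¬ LocallyConnectedSpace XX := by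
  intro hlc
  obtain ⟨x, -, -⟩ := exists_far
  obtain ⟨δ₀, hδ₀, h₀⟩ := pos_of_near 0
  obtain ⟨V, hV, hVc, hVU⟩ := locallyConnectedSpace_iff_connected_subsets.1 hlc (mk x) _
    (Metric.ball_mem_nhds _ hδ₀)
  obtain ⟨ε, hε, hball⟩ := Metric.mem_nhds_iff.1 hV
  obtain ⟨n, hn⟩ := near_of_pos hε
  obtain ⟨a₀, ha₀⟩ := exists_missed x n
  obtain ⟨s, m, hs, hs'⟩ := exists_sheet n (fun _ _ => 0) (fun _ => rfl) (fun _ _ => rfl) a₀
  obtain ⟨t', ht', hne⟩ := hs' x
  have key : ∀ t₁ t₂, mk t₁ ∈ V → Near m t₁ t₂ → s t₂ = s t₁ := by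
    intro t₁ t₂ h1 h2
    have := hs t₁ t₂ h2 (ha₀ t₁ (h₀ _ _ (by rw [← dist_mk]; exact hVU h1)))
    simpa using this
  have hx : mk x ∈ V := mem_of_mem_nhds hV
  have ht : mk t' ∈ V := hball (by
    rw [Metric.mem_ball, dist_mk]
    exact hn _ _ (Near.of_eq ht'))
  have h1 : s (out (mk x)) = s (out (mk t')) :=
    const_on hVc continuous_id (fun p => s (out p)) m
      (fun p hp q _ h => (key _ _ (by rwa [mk_out]) h).symm) hx ht
  rw [key x _ hx (near_out x m), key t' _ ht (near_out t' m)] at h1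
  exact hne h1.symm

theorem not_circle : IsEmpty (XX ≃ₜ Circle) := ⟨fun h => by
  have : LocallyConnectedSpace Circle :=
    ChartedSpace.locallyConnectedSpace (EuclideanSpace ℝ (Fin 1)) Circle
  exact not_locallyConnected h.locallyConnectedSpace⟩

theorem exists_sep {ρ : ℝ → XX} (hρ : Continuous ρ) {a b c d : ℝ} (hab : a ≤ b) (hcd : c ≤ d)
    (h : ∀ s ∈ Icc a b, ∀ t ∈ Icc c d, ρ s ≠ ρ t) :
    ∃ n, ∀ s ∈ Icc a b, ∀ t ∈ Icc c d, (out (ρ s)).x n ≠ (out (ρ t)).x n := by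
  obtain ⟨p, hp, hmin⟩ := (isCompact_Icc.prod isCompact_Icc).exists_isMinOn
    (⟨(a, c), ⟨left_mem_Icc.2 hab, left_mem_Icc.2 hcd⟩⟩ : (Icc a b ×ˢ Icc c d).Nonempty)
    (f := fun p : ℝ × ℝ => dist (ρ p.1) (ρ p.2))
    ((hρ.comp continuous_fst).dist (hρ.comp continuous_snd)).continuousOn
  obtain ⟨n, hn⟩ := near_of_pos (dist_pos.2 (h _ hp.1 _ hp.2))
  refine ⟨n, fun s hs t ht e => ?_⟩
  have h1 := hn _ _ (Near.of_eq e)
  rw [dist_out] at h1
  exact absurd (hmin (show (s, t) ∈ Icc a b ×ˢ Icc c d from ⟨hs, ht⟩)) (not_le.2 h1)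

theorem eq_of_eq_succ {n m : ℕ} (hnm : n ≤ m) {t t' : Th} (h : t.x m = t'.x m) :
    t.x n = t'.x n := by
  induction m, hnm using Nat.le_induction with
  | base => exact h
  | succ m _ ih => exact ih (by rw [← t.compat, ← t'.compat, h])

theorem no_small_circle : ∃ ε > 0, ∀ f : Circle → XX, Continuous f → Injective f →
    ¬ Metric.diam (range f) < ε := by
  classical
  obtain ⟨δ₀, hδ₀, h₀⟩ := pos_of_near 0
  refine ⟨δ₀, hδ₀, fun f hf hinj hd => ?_⟩
  let ρ : ℝ → XX := fun t => f (Circle.exp (Real.pi / 2 * t))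
  have hρ : Continuous ρ := hf.comp (Circle.exp.continuous.comp (continuous_const.mul continuous_id))
  have hpi := Real.pi_pos
  have hsep : ∀ a : ℝ, ∀ s ∈ Icc a (a + 1), ∀ t ∈ Icc (a + 2) (a + 3), ρ s ≠ ρ t := by
    intro a s hs t ht e
    have := Circle.exp_injOn_Icc (a := Real.pi / 2 * a) (b := Real.pi / 2 * (a + 3)) (by nlinarith)
      ⟨by nlinarith [hs.1], by nlinarith [hs.2]⟩ ⟨by nlinarith [ht.1], by nlinarith [ht.2]⟩ (hinj e)
    nlinarith [hs.2, ht.1]
  obtain ⟨n₁, hn₁⟩ := exists_sep hρ (by norm_num) (by norm_num) (hsep 0)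
  obtain ⟨n₂, hn₂⟩ := exists_sep hρ (by norm_num) (by norm_num) (hsep 1)
  let n := max n₁ n₂
  let τ : ℝ → Th := fun t => out (ρ t)
  have h13 : ∀ s ∈ Icc (0 : ℝ) 1, ∀ t ∈ Icc (2 : ℝ) 3, (τ s).x n ≠ (τ t).x n := fun s hs t ht e =>
    hn₁ s (by simpa using hs) t (by simpa using ht) (eq_of_eq_succ (le_max_left _ _) e)
  have h24 : ∀ s ∈ Icc (1 : ℝ) 2, ∀ t ∈ Icc (3 : ℝ) 4, (τ s).x n ≠ (τ t).x n := fun s hs t ht e =>
    hn₂ s ⟨hs.1, by linarith [hs.2]⟩ t ⟨by linarith [ht.1], by linarith [ht.2]⟩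
      (eq_of_eq_succ (le_max_right _ _) e)
  have hnear : ∀ t, Near 0 (τ t) (τ 0) := by
    intro t
    apply h₀
    rw [dist_out]
    exact (Metric.dist_le_diam_of_mem (isCompact_range hf).isBounded (mem_range_self _)
      (mem_range_self _)).trans_lt hd
  obtain ⟨a₀, ha₀⟩ := exists_missed (τ 0) n
  let χ : (seq n).V → ZMod 2 := fun a => if ∃ t ∈ Icc (0 : ℝ) 1, (τ t).x n = a then 1 else 0
  let P : (seq n).V → Prop := fun a => ∃ t ∈ Icc (1 : ℝ) 2, (τ t).x n = a
  obtain ⟨s, m, hs, -⟩ := exists_sheet n (fun a b => if P a ∧ P b then χ a + χ b else 0)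
    (fun a => by simp [CharTwo.add_self_eq_zero]) (fun a b => by simp only [and_comm, add_comm]) a₀
  have hs' : ∀ u v : ℝ, Near m (τ u) (τ v) → s (τ v) = s (τ u) +
      (if P ((τ u).x n) ∧ P ((τ v).x n) then χ ((τ u).x n) + χ ((τ v).x n) else 0) :=
    fun u v h => hs _ _ h (ha₀ _ (hnear u))
  have χ1 : ∀ t ∈ Icc (0 : ℝ) 1, χ ((τ t).x n) = 1 := fun t ht => if_pos ⟨t, ht, rfl⟩
  have χ3 : ∀ t ∈ Icc (2 : ℝ) 3, χ ((τ t).x n) = 0 := fun t ht =>
    if_neg fun ⟨u, hu, e⟩ => h13 u hu t ht e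
  have e1 : s (τ 0) = s (τ 1) :=
    const_on (isPreconnected_Icc (a := (0 : ℝ)) (b := 1)) hρ (fun t => s (τ t)) m
      (fun u hu v hv h => by
        rw [hs' u v h, χ1 u hu, χ1 v hv]
        simp [CharTwo.add_self_eq_zero]) (by norm_num) (by norm_num)
  have e2 : s (τ 1) + χ ((τ 1).x n) = s (τ 2) + χ ((τ 2).x n) :=
    const_on (isPreconnected_Icc (a := (1 : ℝ)) (b := 2)) hρ
      (fun t => s (τ t) + χ ((τ t).x n)) m
      (fun u hu v hv h => by
        rw [hs' u v h, if_pos ⟨⟨u, hu, rfl⟩, ⟨v, hv, rfl⟩⟩, add_assoc, add_assoc,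
          CharTwo.add_self_eq_zero, add_zero]) (by norm_num) (by norm_num)
  have e3 : s (τ 2) = s (τ 3) :=
    const_on (isPreconnected_Icc (a := (2 : ℝ)) (b := 3)) hρ (fun t => s (τ t)) m
      (fun u hu v hv h => by
        rw [hs' u v h, χ3 u hu, χ3 v hv]
        simp) (by norm_num) (by norm_num)
  have e4 : s (τ 3) = s (τ 4) :=
    const_on (isPreconnected_Icc (a := (3 : ℝ)) (b := 4)) hρ (fun t => s (τ t)) m
      (fun u hu v hv h => by
        rw [hs' u v h, if_neg, add_zero]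
        rintro ⟨⟨w, hw, e⟩, -⟩
        exact h24 w hw u hu e) (by norm_num) (by norm_num)
  have e5 : τ 4 = τ 0 := by
    have : ρ 4 = ρ 0 := by
      show f _ = f _
      congr 1
      rw [show Real.pi / 2 * 4 = 2 * Real.pi by ring, Circle.exp_two_pi, mul_zero, Circle.exp_zero]
    show out _ = out _
    rw [this]
  rw [χ1 1 (by norm_num), χ3 2 (by norm_num), add_zero, e3, e4, e5, e1] at e2
  simp at e2

end Pool.Agent.Work.MP_df5cf0_gt
end
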